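import Pool.Agent.Ins.Stmts

/-!
# OPEN: cutting one arc does not change the number of components
-/

set_option autoImplicit false

namespace Pool.Agent.Ins

variable {n : ℕ}

private theorem open_join_join (c : Fin n → Way) (p : Tip n) : join c (join c p) = p := by
  obtain ⟨s | ⟨x, i⟩, b⟩ := p
  · simp [join]
  · cases h : c x <;> simp [join, h]

private theorem open_join_ne (c : Fin n → Way) (p : Tip n) : join c p ≠ p := by
  obtain ⟨s | ⟨x, i⟩, b⟩ := p
  · intro h
    have h1 := congrArg Prod.snd h
    simp [join] at h1
  · cases h : c x
    · intro h2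
      have h1 := congrArg Prod.snd h2
      simp [join, h] at h1
    · intro h2
      have h1 := congrArg Prod.snd h2
      simp [join, h] at h1
    · intro h2
      have h1 := congrArg Prod.fst h2
      simp [join, h] at h1

private theorem open_arc_arc (D : Diagram n) (p : Tip n) : D.arc (D.arc p) = p := by
  obtain ⟨s, b⟩ := p
  cases b
  · show ((D.next (D.next.symm s), false) : Tip n) = (s, false)
    rw [Equiv.apply_symm_apply]
  · show ((D.next.symm (D.next s), true) : Tip n) = (s, true)
    rw [Equiv.symm_apply_apply]

private theorem open_arc_ne (D : Diagram n) (p : Tip n) : D.arc p ≠ p := by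
  obtain ⟨s, b⟩ := p
  intro h
  have h1 := congrArg Prod.snd h
  cases b
  · exact absurd h1 (by simp [Diagram.arc])
  · exact absurd h1 (by simp [Diagram.arc])

theorem thm_Open (hP : St_Pair) : St_Open := by
  intro n D z c
  classical
  have e0 : D.arc (z, true) = (D.next z, false) := rfl
  have e1 : D.arc (D.next z, false) = (z, true) := by
    show ((D.next.symm (D.next z), true) : Tip n) = (z, true)
    rw [Equiv.symm_apply_apply]
  set μ : Tip n → Tip n := fun p =>
    if p = (z, true) ∨ p = (D.next z, false) then p else D.arc p with hμ
  have hμμ : ∀ p, μ (μ p) = p := by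
    intro p
    by_cases h : p = (z, true) ∨ p = (D.next z, false)
    · have h1 : μ p = p := if_pos h
      rw [h1, h1]
    · have h1 : μ p = D.arc p := if_neg h
      have h2 : ¬ (D.arc p = (z, true) ∨ D.arc p = (D.next z, false)) := by
        rintro (h3 | h3)
        · exact h (Or.inr (by rw [← open_arc_arc D p, h3, e0]))
        · exact h (Or.inl (by rw [← open_arc_arc D p, h3, e1]))
      rw [h1]
      have h3 : μ (D.arc p) = D.arc (D.arc p) := if_neg h2
      rw [h3, open_arc_arc]
  have hx : μ (z, true) = (z, true) := if_pos (Or.inl rfl)
  obtain ⟨y, hy1, hy2, hy3, -⟩ := hP (Tip n) μ (join c) hμμ (open_join_join c)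
    (open_join_ne c) (z, true) hx
  have hy : y = (D.next z, false) := by
    by_contra h
    have h1 : ¬ (y = (z, true) ∨ y = (D.next z, false)) := by
      rintro (h2 | h2)
      · exact hy1 h2
      · exact h h2
    have h2 : μ y = D.arc y := if_neg h1
    exact open_arc_ne D y (h2.symm.trans hy2)
  subst hy
  -- the two tips are joined in the open diagram
  set ro : Tip n → Tip n → Prop := fun p q =>
    q = join c p ∨ (q = D.arc p ∧ p ≠ (z, true) ∧ p ≠ (D.next z, false)) with hro
  have key : Quot.mk ro (D.next z, false) = Quot.mk ro (z, true) := by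
    have hl : ∀ p q : Tip n, (q = μ p ∨ q = join c p) → Quot.mk ro p = Quot.mk ro q := by
      rintro p q (h | h)
      · by_cases h1 : p = (z, true) ∨ p = (D.next z, false)
        · have h2 : μ p = p := if_pos h1
          rw [h, h2]
        · have h2 : μ p = D.arc p := if_neg h1
          refine Quot.sound (Or.inr ⟨h.trans h2, fun h3 => h1 (Or.inl h3),
            fun h3 => h1 (Or.inr h3)⟩)
      · exact Quot.sound (Or.inl h)
    exact congrArg (Quot.lift (fun p => Quot.mk ro p) hl) hy3
  refine Nat.card_congr
    { toFun := Quot.lift (fun p => Quot.mk _ p) fun p q h => Quot.sound ?_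
      invFun := Quot.lift (fun p => Quot.mk ro p) fun p q h => ?_
      left_inv := ?_
      right_inv := ?_ }
  · rcases h with h | h
    · exact Or.inl h
    · exact Or.inr h.1
  · rcases h with h | h
    · exact Quot.sound (Or.inl h)
    · by_cases h1 : p = (z, true)
      · subst h1
        rw [h, e0]
        exact key.symm
      · by_cases h2 : p = (D.next z, false)
        · subst h2
          rw [h, e1]
          exact key
        · exact Quot.sound (Or.inr ⟨h, h1, h2⟩)
  · intro q
    induction q using Quot.ind with
    | mk p => rfl
  · intro q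
    induction q using Quot.ind with
    | mk p => rfl

end Pool.Agent.Ins
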