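import Pool.Agent.Ins.Stmts

/-!
# Insertion of braids, module Pair
-/

set_option autoImplicit false

namespace Pool.Agent.Ins

theorem thm_Pair : St_Pair := by
  intro V _ μ ν hμ hν hν' x hx
  let M : Equiv.Perm V := ⟨μ, μ, hμ, hμ⟩
  let N : Equiv.Perm V := ⟨ν, ν, hν, hν⟩
  have hM : ∀ p, M p = μ p := fun _ => rfl
  have hN : ∀ p, N p = ν p := fun _ => rfl
  have hMM : M * M = 1 := by ext p; exact hμ p
  have hNN : N * N = 1 := by ext p; exact hν p
  have hMi : M⁻¹ = M := inv_eq_of_mul_eq_one_left hMM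
  have hNi : N⁻¹ = N := inv_eq_of_mul_eq_one_left hNN
  set ρ : Equiv.Perm V := N * M with hρ
  have hconj : M * ρ * M⁻¹ = ρ⁻¹ := by
    rw [hρ, mul_inv_rev, hMi, hNi, mul_assoc, mul_assoc, hMM, mul_one]
  have hconj' : ∀ i : ℤ, M * ρ ^ i = ρ ^ (-i) * M := by
    intro i
    have h1 : M * ρ ^ i * M⁻¹ = ρ ^ (-i) := by
      rw [← conj_zpow, hconj, inv_zpow, zpow_neg]
    rw [← h1, inv_mul_cancel_right]
  have hμi : ∀ i : ℤ, μ ((ρ ^ i) x) = (ρ ^ (-i)) x := by
    intro i
    have h1 := congrArg (fun g : Equiv.Perm V => g x) (hconj' i)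
    simp only [Equiv.Perm.coe_mul, Function.comp_apply] at h1
    rw [hM, hM, hx] at h1
    exact h1
  have hNρ : N = ρ * M := by rw [hρ, mul_assoc, hMM, mul_one]
  have hνi : ∀ i : ℤ, ν ((ρ ^ i) x) = (ρ ^ (1 - i)) x := by
    intro i
    have h1 : N ((ρ ^ i) x) = ρ (M ((ρ ^ i) x)) := by
      conv_lhs => rw [hNρ]
      rfl
    rw [hN, hM, hμi] at h1
    rw [h1, show (1 - i : ℤ) = 1 + -i by ring, zpow_add, zpow_one]
    rfl
  -- the class of x
  have hcl : ∀ z : V, Quot.mk (fun p q : V => q = μ p ∨ q = ν p) z =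
      Quot.mk (fun p q : V => q = μ p ∨ q = ν p) x → ∃ i : ℤ, z = (ρ ^ i) x := by
    intro z hz
    let f : V → Prop := fun p => ∃ i : ℤ, p = (ρ ^ i) x
    have hf : ∀ p q : V, (q = μ p ∨ q = ν p) → f p = f q := by
      have h1 : ∀ p, f p → f (μ p) := by
        rintro p ⟨i, rfl⟩
        exact ⟨-i, hμi i⟩
      have h2 : ∀ p, f p → f (ν p) := by
        rintro p ⟨i, rfl⟩
        exact ⟨1 - i, hνi i⟩
      rintro p q (rfl | rfl)
      · refine propext ⟨h1 p, fun h => ?_⟩
        have := h1 _ h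
        rwa [hμ] at this
      · refine propext ⟨h2 p, fun h => ?_⟩
        have := h2 _ h
        rwa [hν] at this
    have h3 : Quot.lift f hf (Quot.mk _ z) = Quot.lift f hf (Quot.mk _ x) := by rw [hz]
    have h4 : f z = f x := h3
    have h5 : f x := ⟨0, by simp⟩
    rw [← h4] at h5
    exact h5
  have hstep : ∀ n : ℕ, Quot.mk (fun p q : V => q = μ p ∨ q = ν p) ((ρ ^ n) x) =
      Quot.mk (fun p q : V => q = μ p ∨ q = ν p) x := by
    intro n
    induction n with
    | zero => simp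
    | succ n ih =>
        rw [← ih, pow_succ']
        have e1 : (ρ * ρ ^ n) x = ν (μ ((ρ ^ n) x)) := rfl
        rw [e1]
        refine Eq.trans (Quot.sound (r := fun p q : V => q = μ p ∨ q = ν p) (Or.inr rfl)).symm ?_
        exact (Quot.sound (r := fun p q : V => q = μ p ∨ q = ν p) (Or.inl rfl)).symm
  -- the period
  set k : ℕ := Function.minimalPeriod (fun p => ρ • p) x with hk
  have hdvd : ∀ i : ℤ, (ρ ^ i) x = x ↔ (k : ℤ) ∣ i := by
    intro i
    exact MulAction.zpow_smul_eq_iff_minimalPeriod_dvd (a := ρ) (b := x) (n := i)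
  have hkpos : 0 < k := by
    rcases Nat.eq_zero_or_pos k with h0 | h0
    · exfalso
      have hfin : IsOfFinOrder ρ := isOfFinOrder_of_finite ρ
      have h1 : (ρ ^ ((orderOf ρ : ℕ) : ℤ)) x = x := by
        rw [zpow_natCast, pow_orderOf_eq_one]
        rfl
      rw [hdvd, h0] at h1
      have h2 : ((orderOf ρ : ℕ) : ℤ) = 0 := by simpa using h1
      have h3 : 0 < orderOf ρ := hfin.orderOf_pos
      omega
    · exact h0
  have heven : ∃ m : ℕ, k = 2 * m := by
    rcases Nat.even_or_odd k with h | h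
    · obtain ⟨m, hm⟩ := h
      exact ⟨m, by omega⟩
    · exfalso
      obtain ⟨m, hm⟩ := h
      have h1 := hνi (m + 1)
      have h2 : (ρ ^ (2 * m + 1 : ℤ)) x = x := by
        rw [hdvd, hm]
        push_cast
        exact dvd_rfl
      have h3 : (ρ ^ (m + 1 : ℤ)) x = (ρ ^ (1 - (m + 1) : ℤ)) x := by
        have : (m + 1 : ℤ) = (1 - (m + 1)) + (2 * m + 1) := by ring
        conv_lhs => rw [this, zpow_add]
        show (ρ ^ (1 - (m + 1) : ℤ)) ((ρ ^ (2 * m + 1 : ℤ)) x) = _
        rw [h2]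
      rw [← h3] at h1
      exact hν' _ h1
  obtain ⟨m, hm⟩ := heven
  have hshift : ∀ i j : ℤ, (k : ℤ) ∣ i - j → (ρ ^ i) x = (ρ ^ j) x := by
    intro i j h
    have h1 := (hdvd _).2 h
    have : i = j + (i - j) := by ring
    rw [this, zpow_add]
    show (ρ ^ j) ((ρ ^ (i - j)) x) = _
    rw [h1]
  refine ⟨(ρ ^ m) x, ?_, ?_, ?_, ?_⟩
  · intro h
    have h1 : (ρ ^ (m : ℤ)) x = x := by rw [zpow_natCast]; exact h
    rw [hdvd] at h1
    have h2 : k ∣ m := by exact_mod_cast h1
    have h3 := Nat.le_of_dvd (by omega) h2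
    omega
  · have h1 := hμi m
    rw [zpow_natCast] at h1
    rw [h1, ← zpow_natCast]
    refine hshift _ _ ?_
    refine ⟨-1, ?_⟩
    rw [hm]
    push_cast
    ring
  · exact hstep m
  · intro z hz hzx
    obtain ⟨i, rfl⟩ := hcl z hzx
    rw [hμi] at hz
    have h1 : (ρ ^ (2 * i)) x = x := by
      have h2 : (ρ ^ (2 * i)) x = (ρ ^ i) ((ρ ^ i) x) := by
        rw [show (2 * i : ℤ) = i + i by ring, zpow_add]
        rfl
      rw [h2, ← hz]
      show (ρ ^ i * ρ ^ (-i)) x = x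
      rw [← zpow_add, add_neg_cancel, zpow_zero]
      rfl
    rw [hdvd, hm] at h1
    obtain ⟨c, hc⟩ := h1
    have h2 : i = m * c := by
      push_cast at hc
      linarith
    rcases Int.even_or_odd c with h | h
    · left
      obtain ⟨d, hd⟩ := h
      have h3 := hshift i 0 ⟨d, by rw [h2, hd, hm]; push_cast; ring⟩
      rw [h3]
      simp
    · right
      obtain ⟨d, hd⟩ := h
      have h3 := hshift i m ⟨d, by rw [h2, hd, hm]; push_cast; ring⟩
      rw [h3, zpow_natCast]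

end Pool.Agent.Ins
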