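import Pool.Agent.Ins.Stmts

/-!
# Counting curves with two colours
-/

namespace Pool.Agent.Ins

open Matrix

/-- Functions on the classes are invariant functions. -/
private def closeE1 {α : Type} (r : α → α → Prop) :
    (Quot r → Bool) ≃ {h : α → Bool // ∀ p q, r p q → h p = h q} where
  toFun f := ⟨fun p => f (Quot.mk r p), fun _ _ hpq => congrArg f (Quot.sound hpq)⟩
  invFun h := Quot.lift h.1 h.2
  left_inv f := by
    funext q
    induction q using Quot.ind
    rfl
  right_inv h := rfl

/-- Invariant functions, sorted by the colours at the gates. -/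
private def closeE2 {n : ℕ} (D : Diagram n) (c : Fin n → Way) :
    {h : Tip n → Bool // ∀ p q, (q = join c p ∨ q = D.arc p) → h p = h q} ≃
      (Σ x : Col, {h : Tip n → Bool // (∀ p, h (D.arc p) = h p) ∧
        (∀ k i b, h (join c (.inr (k, i), b)) = h (.inr (k, i), b)) ∧
        (∀ a, h (.inl a, false) = x a) ∧ ∀ a, h (.inl a, true) = x a}) where
  toFun h := ⟨fun a => h.1 (.inl a, false), h.1, fun p => (h.2 p _ (Or.inr rfl)).symm,
    fun k i b => (h.2 _ _ (Or.inl rfl)).symm, fun _ => rfl,
    fun a => (h.2 (.inl a, false) (.inl a, true) (Or.inl rfl)).symm⟩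
  invFun s := ⟨s.2.1, by
    obtain ⟨x, h, h1, h2, h3, h4⟩ := s
    rintro p q (rfl | rfl)
    · obtain ⟨a | ⟨k, i⟩, b⟩ := p
      · cases b
        · exact (h3 a).trans (h4 a).symm
        · exact (h4 a).trans (h3 a).symm
      · exact (h2 k i b).symm
    · exact (h1 p).symm⟩
  left_inv h := rfl
  right_inv s := by
    obtain ⟨x, h, h1, h2, h3, h4⟩ := s
    obtain rfl : (fun a => h (.inl a, false)) = x := funext h3
    rfl

theorem thm_Close : St_Close := by
  intro n D c
  have h1 : Nat.card (Quot (fun p q : Tip n => q = join c p ∨ q = D.arc p) → Bool) =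
      2 ^ D.curves c := by
    rw [Nat.card_fun, Nat.card_eq_fintype_card, Fintype.card_bool]
    rfl
  rw [← h1, Nat.card_congr ((closeE1 _).trans (closeE2 D c)), Nat.card_sigma]
  rfl

end Pool.Agent.Ins
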