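import Pool.Agent.Ins.Stmts

/-!
# COMPACT: a limit of the coefficient vectors
-/

namespace Pool.Agent.Ins

open Matrix Filter Topology Pool.Agent.B4

theorem Compact_form3 {a : ℝ} (h1 : 191 / 100 ≤ a) (h2 : a ≤ 2) (u v w : ℂ)
    (h : a * (Complex.normSq u + Complex.normSq v + Complex.normSq w) -
      2 * (u.re * v.re + u.im * v.im) - 2 * (v.re * w.re + v.im * w.im) = a) :
    ‖u‖ ≤ 3 ∧ ‖v‖ ≤ 3 ∧ ‖w‖ ≤ 3 := by
  rw [Complex.normSq_apply, Complex.normSq_apply, Complex.normSq_apply] at h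
  have h3 : (u.re ^ 2 + u.im ^ 2) + (v.re ^ 2 + v.im ^ 2) + (w.re ^ 2 + w.im ^ 2) ≤ 9 := by
    nlinarith [sq_nonneg (u.re - v.re * (3 / 4)), sq_nonneg (u.im - v.im * (3 / 4)),
      sq_nonneg (w.re - v.re * (3 / 4)), sq_nonneg (w.im - v.im * (3 / 4)),
      mul_nonneg (sub_nonneg.mpr h1) (sq_nonneg u.re),
      mul_nonneg (sub_nonneg.mpr h1) (sq_nonneg u.im),
      mul_nonneg (sub_nonneg.mpr h1) (sq_nonneg v.re),
      mul_nonneg (sub_nonneg.mpr h1) (sq_nonneg v.im),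
      mul_nonneg (sub_nonneg.mpr h1) (sq_nonneg w.re),
      mul_nonneg (sub_nonneg.mpr h1) (sq_nonneg w.im)]
  have h4 : ∀ x : ℂ, x.re ^ 2 + x.im ^ 2 ≤ 9 → ‖x‖ ≤ 3 := by
    intro x hx
    have h5 := Complex.sq_norm x
    rw [Complex.normSq_apply] at h5
    nlinarith [norm_nonneg x]
  refine ⟨h4 u ?_, h4 v ?_, h4 w ?_⟩ <;>
    nlinarith [sq_nonneg u.re, sq_nonneg u.im, sq_nonneg v.re, sq_nonneg v.im,
      sq_nonneg w.re, sq_nonneg w.im]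

theorem Compact_form2 {a : ℝ} (h1 : 191 / 100 ≤ a) (h2 : a ≤ 2) (u v : ℂ)
    (h : a * (Complex.normSq u + Complex.normSq v) -
      2 * (u.re * v.re + u.im * v.im) = a) :
    ‖u‖ ≤ 3 ∧ ‖v‖ ≤ 3 := by
  rw [Complex.normSq_apply, Complex.normSq_apply] at h
  have h3 : (u.re ^ 2 + u.im ^ 2) + (v.re ^ 2 + v.im ^ 2) ≤ 9 := by
    nlinarith [sq_nonneg (u.re - v.re), sq_nonneg (u.im - v.im),
      mul_nonneg (sub_nonneg.mpr h1) (sq_nonneg u.re),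
      mul_nonneg (sub_nonneg.mpr h1) (sq_nonneg u.im),
      mul_nonneg (sub_nonneg.mpr h1) (sq_nonneg v.re),
      mul_nonneg (sub_nonneg.mpr h1) (sq_nonneg v.im)]
  have h4 : ∀ x : ℂ, x.re ^ 2 + x.im ^ 2 ≤ 9 → ‖x‖ ≤ 3 := by
    intro x hx
    have h5 := Complex.sq_norm x
    rw [Complex.normSq_apply] at h5
    nlinarith [norm_nonneg x]
  refine ⟨h4 u ?_, h4 v ?_⟩ <;>
    nlinarith [sq_nonneg u.re, sq_nonneg u.im, sq_nonneg v.re, sq_nonneg v.im]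

theorem Compact_entry3 {a : ℝ} (h1 : 191 / 100 ≤ a) (h2 : a ≤ 2) (M : Matrix (Fin 3) (Fin 3) ℂ)
    (hM : Mᴴ * G3 (-a) * M = G3 (-a)) (i j : Fin 3) : ‖M i j‖ ≤ 3 := by
  have h := congrArg Complex.re (congrFun (congrFun hM j) j)
  have h3 := Compact_form3 h1 h2 (M 0 j) (M 1 j) (M 2 j) (by
    fin_cases j <;>
    · simp [G3, Matrix.mul_apply, Fin.sum_univ_three] at h ⊢
      rw [Complex.normSq_apply, Complex.normSq_apply, Complex.normSq_apply]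
      linarith)
  fin_cases i
  · exact h3.1
  · exact h3.2.1
  · exact h3.2.2

theorem Compact_entry2 {a : ℝ} (h1 : 191 / 100 ≤ a) (h2 : a ≤ 2) (M : Matrix (Fin 2) (Fin 2) ℂ)
    (hM : Mᴴ * G2 (-a) * M = G2 (-a)) (i j : Fin 2) : ‖M i j‖ ≤ 3 := by
  have h := congrArg Complex.re (congrFun (congrFun hM j) j)
  have h3 := Compact_form2 h1 h2 (M 0 j) (M 1 j) (by
    fin_cases j <;>
    · simp [G2, Matrix.mul_apply, Fin.sum_univ_two] at h ⊢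
      rw [Complex.normSq_apply, Complex.normSq_apply]
      linarith)
  fin_cases i
  · exact h3.1
  · exact h3.2

/-- One row of the linear system in dimension three. -/
theorem Compact_row3 {a C : ℝ} (h1 : 191 / 100 ≤ a) (u v w : ℂ)
    (e1 : ‖-(a : ℂ) * u + v‖ ≤ C) (e2 : ‖u + -(a : ℂ) * v + w‖ ≤ C)
    (e3 : ‖v + -(a : ℂ) * w‖ ≤ C) (h2 : a ≤ 2) : ‖u‖ ≤ 4 * C ∧ ‖v‖ ≤ 4 * C ∧ ‖w‖ ≤ 4 * C := by
  have hC : 0 ≤ C := (norm_nonneg _).trans e1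
  have ha : ‖(a : ℂ)‖ = a := by
    rw [Complex.norm_real, Real.norm_eq_abs, abs_of_nonneg (by linarith)]
  have hv : ‖v‖ ≤ 3 * C := by
    have h3 : ((a : ℂ) ^ 2 - 2) * v = -(a : ℂ) * (u + -(a : ℂ) * v + w) - (-(a : ℂ) * u + v) -
        (v + -(a : ℂ) * w) := by ring
    have h4 : ‖((a : ℂ) ^ 2 - 2) * v‖ ≤ a * C + C + C := by
      rw [h3]
      refine (norm_sub_le _ _).trans (add_le_add ((norm_sub_le _ _).trans (add_le_add ?_ e1)) e3)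
      rw [norm_mul, norm_neg, ha]
      exact mul_le_mul_of_nonneg_left e2 (by linarith)
    have h5 : ‖((a : ℂ) ^ 2 - 2)‖ = a ^ 2 - 2 := by
      rw [show ((a : ℂ) ^ 2 - 2) = ((a ^ 2 - 2 : ℝ) : ℂ) by push_cast; ring, Complex.norm_real,
        Real.norm_eq_abs, abs_of_nonneg (by nlinarith)]
    rw [norm_mul, h5] at h4
    have h6 : (8 / 5) * ‖v‖ ≤ (a ^ 2 - 2) * ‖v‖ :=
      mul_le_mul_of_nonneg_right (by nlinarith) (norm_nonneg _)
    have h7 : a * C ≤ 2 * C := mul_le_mul_of_nonneg_right h2 hC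
    linarith
  have hx : ∀ x : ℂ, ‖-(a : ℂ) * x + v‖ ≤ C → ‖x‖ ≤ 4 * C := by
    intro x hx
    have h3 : (a : ℂ) * x = v - (-(a : ℂ) * x + v) := by ring
    have h4 : ‖(a : ℂ) * x‖ ≤ 3 * C + C := by
      rw [h3]
      exact (norm_sub_le _ _).trans (add_le_add hv hx)
    rw [norm_mul, ha] at h4
    nlinarith [norm_nonneg x]
  exact ⟨hx u e1, by linarith, hx w (by rw [add_comm]; exact e3)⟩

/-- One row of the linear system in dimension two. -/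
theorem Compact_row2 {a C : ℝ} (h1 : 191 / 100 ≤ a) (u v : ℂ)
    (e1 : ‖-(a : ℂ) * (-(a : ℂ) * u + v)‖ ≤ C) (e2 : ‖-(a : ℂ) * (u + -(a : ℂ) * v)‖ ≤ C) :
    ‖u‖ ≤ 4 * C ∧ ‖v‖ ≤ 4 * C := by
  have hC : 0 ≤ C := (norm_nonneg _).trans e1
  have ha : ‖(a : ℂ)‖ = a := by
    rw [Complex.norm_real, Real.norm_eq_abs, abs_of_nonneg (by linarith)]
  have key : ∀ x y : ℂ, ‖-(a : ℂ) * (-(a : ℂ) * x + y)‖ ≤ C →
      ‖-(a : ℂ) * (x + -(a : ℂ) * y)‖ ≤ C → ‖x‖ ≤ 4 * C := by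
    intro x y e1 e2
    rw [norm_mul, norm_neg, ha] at e1 e2
    have h3 : ((a : ℂ) ^ 2 - 1) * x = -(a : ℂ) * (-(a : ℂ) * x + y) - (x + -(a : ℂ) * y) := by
      ring
    have h5 : ‖((a : ℂ) ^ 2 - 1)‖ = a ^ 2 - 1 := by
      rw [show ((a : ℂ) ^ 2 - 1) = ((a ^ 2 - 1 : ℝ) : ℂ) by push_cast; ring, Complex.norm_real,
        Real.norm_eq_abs, abs_of_nonneg (by nlinarith)]
    have h6 : ‖((a : ℂ) ^ 2 - 1) * x‖ ≤ C + C := by
      rw [h3]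
      refine (norm_sub_le _ _).trans (add_le_add ?_ ?_)
      · rw [norm_mul, norm_neg, ha]
        exact e1
      · nlinarith [norm_nonneg (x + -(a : ℂ) * y)]
    rw [norm_mul, h5] at h6
    have h7 : 2 * ‖x‖ ≤ (a ^ 2 - 1) * ‖x‖ :=
      mul_le_mul_of_nonneg_right (by nlinarith) (norm_nonneg _)
    nlinarith [norm_nonneg x]
  refine ⟨key u v e1 e2, key v u ?_ ?_⟩
  · rw [add_comm]
    exact e2
  · rw [add_comm]
    exact e1

theorem Compact_sum {R : Type*} [AddCommMonoid R] [Module ℂ R] (z : Fin 14 → ℂ) (f : Fin 14 → R) :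
    ∑ i, z i • f i = z 0 • f 0 + z 1 • f 1 + z 2 • f 2 + z 3 • f 3 + z 4 • f 4 + z 5 • f 5 +
      z 6 • f 6 + z 7 • f 7 + z 8 • f 8 + z 9 • f 9 + z 10 • f 10 + z 11 • f 11 + z 12 • f 12 +
      z 13 • f 13 := by
  simp only [Fin.sum_univ_castSucc, Finset.univ_eq_empty, Finset.sum_empty, zero_add]
  rfl

theorem Compact_comb3 (d : ℂ) (z : Fin 14 → ℂ) : comb3 d z =
    !![z 0 + d * z 1 + z 4, z 1 + d * z 4 + z 9, z 4 + d * z 9;
      d * z 5 + z 2, z 0 + z 5 + d * z 2 + z 6, z 2 + d * z 6;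
      d * z 10 + z 7, z 10 + d * z 7 + z 3, z 0 + z 7 + d * z 3] := by
  unfold comb3
  rw [Compact_sum]
  ext i j
  fin_cases i <;> fin_cases j <;> simp [wd, EE] <;> ring

theorem Compact_comb2 (d : ℂ) (z : Fin 14 → ℂ) : comb2 d z =
    !![z 0 + d * (z 1 + z 3 + z 9 + z 10) + (z 4 + z 7) + d * (d * z 8 + z 11),
      (z 1 + z 3 + z 9 + z 10) + d * (z 4 + z 7) + d * (z 8 + d * z 11);
      z 2 + d * (z 5 + z 6) + d * (d * z 12 + z 13),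
      z 0 + d * z 2 + (z 5 + z 6) + d * (z 12 + d * z 13)] := by
  unfold comb2
  rw [Compact_sum]
  ext i j
  fin_cases i <;> fin_cases j <;> simp [wd, FF] <;> ring

/-- Subtracting terms of bounded norm. -/
theorem Compact_sub (p q : ℂ) {A B : ℝ} (hp : ‖p‖ ≤ A) (hq : ‖q‖ ≤ B) : ‖p - q‖ ≤ A + B :=
  (norm_sub_le _ _).trans (add_le_add hp hq)

theorem Compact_add (p q : ℂ) {A B : ℝ} (hp : ‖p‖ ≤ A) (hq : ‖q‖ ≤ B) : ‖p + q‖ ≤ A + B :=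
  (norm_add_le _ _).trans (add_le_add hp hq)

theorem Compact_mul {a : ℝ} (h1 : 191 / 100 ≤ a) (h2 : a ≤ 2) (p : ℂ) {A : ℝ} (hp : ‖p‖ ≤ A) :
    ‖(a : ℂ) * p‖ ≤ 2 * A := by
  rw [norm_mul, Complex.norm_real, Real.norm_eq_abs, abs_of_nonneg (by linarith)]
  exact mul_le_mul h2 hp (norm_nonneg _) (by norm_num)

/-- The coefficients are bounded. -/
theorem Compact_bound {a : ℝ} (h1 : 191 / 100 ≤ a) (h2 : a ≤ 2) (z : Fin 14 → ℂ)
    (h0 : ‖z 0‖ ≤ 1) (h3 : ∀ i j, ‖comb3 (-a) z i j‖ ≤ 3) (h4 : ∀ i j, ‖comb2 (-a) z i j‖ ≤ 3)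
    (i : Fin 14) : ‖z i‖ ≤ 1000 := by
  rw [Compact_comb3] at h3
  rw [Compact_comb2] at h4
  have m00 : ‖z 0 + -(a : ℂ) * z 1 + z 4‖ ≤ 3 := h3 0 0
  have m01 : ‖z 1 + -(a : ℂ) * z 4 + z 9‖ ≤ 3 := h3 0 1
  have m02 : ‖z 4 + -(a : ℂ) * z 9‖ ≤ 3 := h3 0 2
  have m10 : ‖-(a : ℂ) * z 5 + z 2‖ ≤ 3 := h3 1 0
  have m11 : ‖z 0 + z 5 + -(a : ℂ) * z 2 + z 6‖ ≤ 3 := h3 1 1
  have m12 : ‖z 2 + -(a : ℂ) * z 6‖ ≤ 3 := h3 1 2
  have m20 : ‖-(a : ℂ) * z 10 + z 7‖ ≤ 3 := h3 2 0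
  have m21 : ‖z 10 + -(a : ℂ) * z 7 + z 3‖ ≤ 3 := h3 2 1
  have m22 : ‖z 0 + z 7 + -(a : ℂ) * z 3‖ ≤ 3 := h3 2 2
  have n00 : ‖z 0 + -(a : ℂ) * (z 1 + z 3 + z 9 + z 10) + (z 4 + z 7) +
    -(a : ℂ) * (-(a : ℂ) * z 8 + z 11)‖ ≤ 3 := h4 0 0
  have n01 : ‖(z 1 + z 3 + z 9 + z 10) + -(a : ℂ) * (z 4 + z 7) +
    -(a : ℂ) * (z 8 + -(a : ℂ) * z 11)‖ ≤ 3 := h4 0 1
  have n10 : ‖z 2 + -(a : ℂ) * (z 5 + z 6) + -(a : ℂ) * (-(a : ℂ) * z 12 + z 13)‖ ≤ 3 := h4 1 0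
  have n11 : ‖z 0 + -(a : ℂ) * z 2 + (z 5 + z 6) +
    -(a : ℂ) * (z 12 + -(a : ℂ) * z 13)‖ ≤ 3 := h4 1 1
  have r0 := Compact_row3 (C := 4) h1 (z 1) (z 4) (z 9) (by
      have := Compact_sub _ _ m00 h0
      rw [show -(a : ℂ) * z 1 + z 4 = z 0 + -(a : ℂ) * z 1 + z 4 - z 0 by ring]
      linarith) (by linarith) (by linarith) h2
  have r1 := Compact_row3 (C := 4) h1 (z 5) (z 2) (z 6) (by linarith) (by
      have := Compact_sub _ _ m11 h0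
      rw [show z 5 + -(a : ℂ) * z 2 + z 6 = z 0 + z 5 + -(a : ℂ) * z 2 + z 6 - z 0 by ring]
      linarith) (by linarith) h2
  have r2 := Compact_row3 (C := 4) h1 (z 10) (z 7) (z 3) (by linarith) (by linarith) (by
      have := Compact_sub _ _ m22 h0
      rw [show z 7 + -(a : ℂ) * z 3 = z 0 + z 7 + -(a : ℂ) * z 3 - z 0 by ring]
      linarith) h2
  obtain ⟨b1, b4, b9⟩ := r0
  obtain ⟨b5, b2, b6⟩ := r1
  obtain ⟨b10, b7, b3⟩ := r2
  have s0 := Compact_add _ _ (Compact_add _ _ (Compact_add _ _ b1 b3) b9) b10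
  have s1 := Compact_add _ _ b4 b7
  have s2 := Compact_add _ _ b5 b6
  have q0 := Compact_row2 (C := 200) h1 (z 8) (z 11) (by
      have := Compact_sub _ _ (Compact_add _ _ (Compact_sub _ _ n00 h0) (Compact_mul h1 h2 _ s0)) s1
      rw [show -(a : ℂ) * (-(a : ℂ) * z 8 + z 11) = z 0 + -(a : ℂ) * (z 1 + z 3 + z 9 + z 10) +
        (z 4 + z 7) + -(a : ℂ) * (-(a : ℂ) * z 8 + z 11) - z 0 +
        (a : ℂ) * (z 1 + z 3 + z 9 + z 10) - (z 4 + z 7) by ring]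
      linarith) (by
      have := Compact_add _ _ (Compact_sub _ _ n01 s0) (Compact_mul h1 h2 _ s1)
      rw [show -(a : ℂ) * (z 8 + -(a : ℂ) * z 11) = (z 1 + z 3 + z 9 + z 10) +
        -(a : ℂ) * (z 4 + z 7) + -(a : ℂ) * (z 8 + -(a : ℂ) * z 11) - (z 1 + z 3 + z 9 + z 10) +
        (a : ℂ) * (z 4 + z 7) by ring]
      linarith)
  have q1 := Compact_row2 (C := 200) h1 (z 12) (z 13) (by
      have := Compact_add _ _ (Compact_sub _ _ n10 b2) (Compact_mul h1 h2 _ s2)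
      rw [show -(a : ℂ) * (-(a : ℂ) * z 12 + z 13) = z 2 + -(a : ℂ) * (z 5 + z 6) +
        -(a : ℂ) * (-(a : ℂ) * z 12 + z 13) - z 2 + (a : ℂ) * (z 5 + z 6) by ring]
      linarith) (by
      have := Compact_sub _ _ (Compact_add _ _ (Compact_sub _ _ n11 h0) (Compact_mul h1 h2 _ b2)) s2
      rw [show -(a : ℂ) * (z 12 + -(a : ℂ) * z 13) = z 0 + -(a : ℂ) * z 2 + (z 5 + z 6) +
        -(a : ℂ) * (z 12 + -(a : ℂ) * z 13) - z 0 + (a : ℂ) * z 2 - (z 5 + z 6) by ring]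
      linarith)
  obtain ⟨b8, b11⟩ := q0
  obtain ⟨b12, b13⟩ := q1
  fin_cases i
  · exact h0.trans (by norm_num)
  · exact b1.trans (by norm_num)
  · exact b2.trans (by norm_num)
  · exact b3.trans (by norm_num)
  · exact b4.trans (by norm_num)
  · exact b5.trans (by norm_num)
  · exact b6.trans (by norm_num)
  · exact b7.trans (by norm_num)
  · exact b8.trans (by norm_num)
  · exact b9.trans (by norm_num)
  · exact b10.trans (by norm_num)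
  · exact b11.trans (by norm_num)
  · exact b12.trans (by norm_num)
  · exact b13.trans (by norm_num)

theorem thm_Compact : St_Compact := by
  intro I z hI h
  have hne : (cofinite ⊓ 𝓟 I).NeBot := hI.cofinite_inf_principal_neBot
  have hV : ((Ultrafilter.of (cofinite ⊓ 𝓟 I) : Ultrafilter ℤ) : Filter ℤ) ≤ cofinite ⊓ 𝓟 I :=
    Ultrafilter.of_le _
  have hVI : I ∈ ((Ultrafilter.of (cofinite ⊓ 𝓟 I) : Ultrafilter ℤ) : Filter ℤ) :=
    hV (mem_inf_of_right (mem_principal_self I))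
  have hV7 : {e : ℤ | 7 ≤ |e|} ∈ ((Ultrafilter.of (cofinite ⊓ 𝓟 I) : Ultrafilter ℤ) :
      Filter ℤ) := by
    refine (hV.trans inf_le_left) ?_
    rw [mem_cofinite]
    refine (Set.finite_Icc (-6 : ℤ) 6).subset fun e he => ?_
    rw [Set.mem_compl_iff, Set.mem_ofPred_eq, not_le] at he
    have h2 := abs_lt.mp he
    rw [Set.mem_Icc]
    omega
  have hb : ∀ e ∈ I ∩ {e : ℤ | 7 ≤ |e|}, z e ∈ Metric.closedBall (0 : Fin 14 → ℂ) 1000 := by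
    rintro e ⟨he, he7⟩
    obtain ⟨h0, hM3, hM2⟩ := h e he he7
    have hl : lv (pt e) = -((2 * Real.cos (2 * (Real.pi / (3 * e))) : ℝ) : ℂ) := by
      rw [pt_cos]
      unfold lv
      ring
    have h1 := cos_bound he7
    have h2 : 2 * Real.cos (2 * (Real.pi / (3 * e))) ≤ 2 := by
      have := Real.cos_le_one (2 * (Real.pi / (3 * e)))
      linarith
    rw [hl] at hM3 hM2
    rw [mem_closedBall_zero_iff, pi_norm_le_iff_of_nonneg (by norm_num)]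
    exact Compact_bound h1 h2 (z e) h0 (Compact_entry3 h1 h2 _ hM3) (Compact_entry2 h1 h2 _ hM2)
  obtain ⟨z', _, hlim⟩ := (isCompact_closedBall (0 : Fin 14 → ℂ) 1000).ultrafilter_le_nhds
    ((Ultrafilter.of (cofinite ⊓ 𝓟 I)).map z) (by
      rw [le_principal_iff, Ultrafilter.coe_map, mem_map]
      exact Filter.mem_of_superset (inter_mem hVI hV7) hb)
  exact ⟨_, z', inferInstance, hV.trans inf_le_left, hVI, hlim⟩

end Pool.Agent.Ins
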