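import Pool.Agent.Ins.Stmts
import Pool.Agent.B4.Final

/-!
# Insertion of braids: no pair of isometries has the forced traces
-/

namespace Pool.Agent.Ins

open Matrix Pool.Agent.B4

theorem thm_Contra : St_Contra := by
  intro M M' κ hκ hM hM' hdet hdet' htr
  have hr : (√3 : ℝ) ^ 2 = 3 := Real.sq_sqrt (by norm_num)
  have h2 : (-((2 : ℝ) : ℂ)) = (-2 : ℂ) := by norm_num
  have g3 := G3_pos (a := 2) (by norm_num)
  have g2 := G2_pos (a := 2) (by norm_num)
  rw [h2] at g3 g2
  -- the inverse of `κ`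
  have hconj : (starRingEnd ℂ) κ = ⟨1 / 2, √3 / 2⟩ := by
    rw [hκ]
    apply Complex.ext <;> simp
  have hn : (starRingEnd ℂ) κ * κ = 1 := by
    rw [hconj, hκ]
    apply Complex.ext
    · simp only [Complex.mul_re, Complex.one_re]
      linear_combination (1 / 4) * hr
    · simp only [Complex.mul_im, Complex.one_im]
      ring
  have hκi : (starRingEnd ℂ) κ = κ⁻¹ := eq_inv_of_mul_eq_one_left hn
  have hinv : κ⁻¹ = ⟨1 / 2, √3 / 2⟩ := by rw [← hκi, hconj]
  have hρ : M'.det = (⟨-(√3 / 2), 1 / 2⟩ : ℂ) ^ 2 := by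
    rw [hdet', hinv]
    apply Complex.ext
    · simp only [sq, Complex.mul_re, Complex.mul_im, Complex.neg_re, Complex.neg_im]
      ring
    · simp only [sq, Complex.mul_re, Complex.mul_im, Complex.neg_re, Complex.neg_im]
      ring
  have hρ1 : (starRingEnd ℂ) (⟨-(√3 / 2), 1 / 2⟩ : ℂ) * (⟨-(√3 / 2), 1 / 2⟩ : ℂ) = 1 := by
    apply Complex.ext
    · simp only [Complex.mul_re, Complex.conj_re, Complex.conj_im, Complex.one_re]
      linear_combination (1 / 4) * hr
    · simp only [Complex.mul_im, Complex.conj_re, Complex.conj_im, Complex.one_im]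
      ring
  obtain ⟨y, hy, hYy⟩ := two_roots g2 hM' hρ hρ1
  have hD := three_roots g3 hM
  rw [hdet] at hD
  have e1 : (M.trace ^ 3 * (starRingEnd ℂ) (-κ⁻¹)).re = -(M.trace ^ 3 * κ).re := by
    rw [map_neg, map_inv₀, hκi, inv_inv, mul_neg, Complex.neg_re]
  refine no_matrices (a := 2) (by norm_num) (le_of_abs_le hy) hκ (X := M.trace) ?_ ?_
  · rw [← hYy]
    push_cast
    linear_combination htr
  · rw [e1] at hD
    linarith

end Pool.Agent.Ins
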