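import Pool.Agent.Ins.Stmts

/-!
# Coordinates of a braid word with respect to the fourteen words
-/

namespace Pool.Agent.Ins

open Matrix LaurentPolynomial Pool.Agent.B4

/-- The module of the functions which satisfy the relations. -/
private def Coord_M (d : ℂ) : Submodule ℂ (List (Fin 3) → ℂ) where
  carrier := {F | TLFun d F}
  add_mem' {F G} hF hG := ⟨fun u v a => by
      rw [Pi.add_apply, Pi.add_apply, hF.sq, hG.sq, mul_add],
    fun u v a b hab => by rw [Pi.add_apply, Pi.add_apply, hF.braid u v a b hab,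
      hG.braid u v a b hab],
    fun u v => by rw [Pi.add_apply, Pi.add_apply, hF.comm, hG.comm]⟩
  zero_mem' := ⟨fun u v a => by simp, fun u v a b _ => by simp, fun u v => by simp⟩
  smul_mem' c F hF := ⟨fun u v a => by
      rw [Pi.smul_apply, Pi.smul_apply, hF.sq, smul_eq_mul, smul_eq_mul]
      ring,
    fun u v a b hab => by rw [Pi.smul_apply, Pi.smul_apply, hF.braid u v a b hab],
    fun u v => by rw [Pi.smul_apply, Pi.smul_apply, hF.comm]⟩

/-- The turnback at `a` on the module. -/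
private def Coord_E (d : ℂ) (a : Fin 3) : Module.End ℂ (Coord_M d) where
  toFun F := ⟨fun v => F.1 (v ++ [a]), ⟨fun u v x => by
      have h := F.2.sq u (v ++ [a]) x
      simpa only [List.append_assoc, List.cons_append] using h, fun u v x y hxy => by
      have h := F.2.braid u (v ++ [a]) x y hxy
      simpa only [List.append_assoc, List.cons_append] using h, fun u v => by
      have h := F.2.comm u (v ++ [a])
      simpa only [List.append_assoc, List.cons_append] using h⟩⟩
  map_add' F G := rfl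
  map_smul' c F := rfl

private theorem Coord_E_apply (d : ℂ) (a : Fin 3) (F : Coord_M d) (v : List (Fin 3)) :
    (Coord_E d a F).1 v = F.1 (v ++ [a]) := rfl

private theorem Coord_rel (d : ℂ) : TLRel d (Coord_E d 0) (Coord_E d 1) (Coord_E d 2) := by
  have hsq : ∀ a, Coord_E d a * Coord_E d a = d • Coord_E d a := by
    intro a
    refine LinearMap.ext fun F => Subtype.ext (funext fun v => ?_)
    show F.1 (v ++ [a] ++ [a]) = d * F.1 (v ++ [a])
    rw [List.append_assoc]
    exact F.2.sq v [] a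
  have hbr : ∀ a b : Fin 3, a.val + 1 = b.val ∨ b.val + 1 = a.val →
      Coord_E d a * Coord_E d b * Coord_E d a = Coord_E d a := by
    intro a b hab
    refine LinearMap.ext fun F => Subtype.ext (funext fun v => ?_)
    show F.1 (v ++ [a] ++ [b] ++ [a]) = F.1 (v ++ [a])
    rw [List.append_assoc, List.append_assoc]
    exact F.2.braid v [] a b hab
  constructor
  · exact hsq 0
  · exact hsq 1
  · exact hsq 2
  · exact hbr 0 1 (Or.inl rfl)
  · exact hbr 1 0 (Or.inr rfl)
  · exact hbr 1 2 (Or.inl rfl)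
  · exact hbr 2 1 (Or.inr rfl)
  · refine LinearMap.ext fun F => Subtype.ext (funext fun v => ?_)
    show F.1 (v ++ [2] ++ [0]) = F.1 (v ++ [0] ++ [2])
    rw [List.append_assoc, List.append_assoc]
    exact F.2.comm v []

/-- The product of the four representations. -/
private abbrev Coord_R (d : ℂ) : Type := Module.End ℂ (Coord_M d) ×
  Matrix (Fin 3) (Fin 3) ℂ × Matrix (Fin 2) (Fin 2) ℂ × ℂ

/-- The turnbacks in the product. -/
private def Coord_e (d : ℂ) (a : Fin 3) : Coord_R d := (Coord_E d a, EE d a, FF d a, 0)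

private theorem Coord_e_rel (d : ℂ) : TLRel d (Coord_e d 0) (Coord_e d 1) (Coord_e d 2) := by
  have h1 := Coord_rel d
  have h2 := EE_rel d
  have h3 := FF_rel d
  constructor
  · exact Prod.ext h1.xx (Prod.ext h2.xx (Prod.ext h3.xx (by simp [Coord_e])))
  · exact Prod.ext h1.yy (Prod.ext h2.yy (Prod.ext h3.yy (by simp [Coord_e])))
  · exact Prod.ext h1.zz (Prod.ext h2.zz (Prod.ext h3.zz (by simp [Coord_e])))
  · exact Prod.ext h1.xyx (Prod.ext h2.xyx (Prod.ext h3.xyx (by simp [Coord_e])))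
  · exact Prod.ext h1.yxy (Prod.ext h2.yxy (Prod.ext h3.yxy (by simp [Coord_e])))
  · exact Prod.ext h1.yzy (Prod.ext h2.yzy (Prod.ext h3.yzy (by simp [Coord_e])))
  · exact Prod.ext h1.zyz (Prod.ext h2.zyz (Prod.ext h3.zyz (by simp [Coord_e])))
  · exact Prod.ext h1.zx (Prod.ext h2.zx (Prod.ext h3.zx (by simp [Coord_e])))

private theorem Coord_wd (d : ℂ) (i : Fin 14) : wd (Coord_e d 0) (Coord_e d 1) (Coord_e d 2) i =
    (wd (Coord_E d 0) (Coord_E d 1) (Coord_E d 2) i, wd (EE d 0) (EE d 1) (EE d 2) i,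
      wd (FF d 0) (FF d 1) (FF d 2) i, wd (0 : ℂ) 0 0 i) := by
  match i with
  | 0 => rfl
  | 1 => rfl
  | 2 => rfl
  | 3 => rfl
  | 4 => rfl
  | 5 => rfl
  | 6 => rfl
  | 7 => rfl
  | 8 => rfl
  | 9 => rfl
  | 10 => rfl
  | 11 => rfl
  | 12 => rfl
  | 13 => rfl

private theorem Coord_rep (A : ℂˣ) (d : ℂ) (w : List (Fin 3 × ℤˣ)) :
    rep A (Coord_e d) w = (rep A (Coord_E d) w, rep A (EE d) w, rep A (FF d) w,
      rep A (fun _ => (0 : ℂ)) w) := by
  unfold rep
  induction w with
  | nil => rfl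
  | cons l w ih =>
    simp only [List.map_cons, List.prod_cons]
    rw [ih]
    rfl

private theorem Coord_last (A : ℂˣ) (w : List (Fin 3 × ℤˣ)) :
    rep A (fun _ => (0 : ℂ)) w = ((A ^ expSum w : ℂˣ) : ℂ) := by
  unfold rep expSum
  induction w with
  | nil => simp
  | cons l w ih =>
    simp only [List.map_cons, List.prod_cons, List.sum_cons]
    rw [ih, _root_.zpow_add, Units.val_mul, smul_eq_mul, smul_eq_mul, mul_one, mul_zero, add_zero]

private theorem Coord_eval (A : ℂˣ) (d : ℂ) (F : Coord_M d) (w : List (Fin 3 × ℤˣ)) :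
    ∀ v : List (Fin 3), (rep A (Coord_E d) w F).1 v = wordSum A (fun u => F.1 (v ++ u)) w := by
  induction w with
  | nil =>
    intro v
    show F.1 v = F.1 (v ++ [])
    rw [List.append_nil]
  | cons l w ih =>
    intro v
    have h1 : rep A (Coord_E d) (l :: w) = (((A ^ (l.2 : ℤ) : ℂˣ) : ℂ) • (1 : Module.End ℂ
        (Coord_M d)) + ((A ^ (-(l.2 : ℤ)) : ℂˣ) : ℂ) • Coord_E d l.1) *
        rep A (Coord_E d) w := by
      unfold rep
      rw [List.map_cons, List.prod_cons]
    rw [h1]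
    show ((A ^ (l.2 : ℤ) : ℂˣ) : ℂ) * (rep A (Coord_E d) w F).1 v +
      ((A ^ (-(l.2 : ℤ)) : ℂˣ) : ℂ) * (rep A (Coord_E d) w F).1 (v ++ [l.1]) =
      ((A ^ (l.2 : ℤ) : ℂˣ) : ℂ) * wordSum A (fun u => F.1 (v ++ u)) w +
      ((A ^ (-(l.2 : ℤ)) : ℂˣ) : ℂ) * wordSum A (fun u => F.1 (v ++ (l.1 :: u))) w
    rw [ih v, ih (v ++ [l.1])]
    simp only [List.append_assoc, List.cons_append, List.nil_append]

private theorem Coord_wl (d : ℂ) (F : Coord_M d) (i : Fin 14) :
    (wd (Coord_E d 0) (Coord_E d 1) (Coord_E d 2) i F).1 [] = F.1 (wl i) := by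
  match i with
  | 0 => rfl
  | 1 => rfl
  | 2 => rfl
  | 3 => rfl
  | 4 => rfl
  | 5 => rfl
  | 6 => rfl
  | 7 => rfl
  | 8 => rfl
  | 9 => rfl
  | 10 => rfl
  | 11 => rfl
  | 12 => rfl
  | 13 => rfl

theorem thm_Coord : St_Coord := by
  intro A w
  have h1 : rep A (Coord_e (lv A)) w ∈ Submodule.span ℂ
      (Set.range (wd (Coord_e (lv A) 0) (Coord_e (lv A) 1) (Coord_e (lv A) 2))) := by
    unfold rep
    apply list_mem (Coord_e_rel (lv A))
    intro g hg
    obtain ⟨l, _, rfl⟩ := List.mem_map.mp hg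
    refine ⟨_, _, Coord_e (lv A) l.1, ?_, rfl⟩
    generalize l.1 = a
    fin_cases a
    · exact Or.inl rfl
    · exact Or.inr (Or.inl rfl)
    · exact Or.inr (Or.inr rfl)
  obtain ⟨z, hz⟩ := (Submodule.mem_span_range_iff_exists_fun ℂ).mp h1
  rw [Coord_rep] at hz
  simp only [Coord_wd] at hz
  have e1 : ∑ i, z i • wd (Coord_E (lv A) 0) (Coord_E (lv A) 1) (Coord_E (lv A) 2) i =
      rep A (Coord_E (lv A)) w := by
    have h := congrArg Prod.fst hz
    rw [Prod.fst_sum] at h
    exact h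
  have e2 : ∑ i, z i • wd (EE (lv A) 0) (EE (lv A) 1) (EE (lv A) 2) i =
      rep A (EE (lv A)) w := by
    have h := congrArg (fun x => x.2.1) hz
    simp only [Prod.snd_sum, Prod.fst_sum] at h
    exact h
  have e3 : ∑ i, z i • wd (FF (lv A) 0) (FF (lv A) 1) (FF (lv A) 2) i =
      rep A (FF (lv A)) w := by
    have h := congrArg (fun x => x.2.2.1) hz
    simp only [Prod.snd_sum, Prod.fst_sum] at h
    exact h
  have e4 : ∑ i, z i • wd (0 : ℂ) 0 0 i = rep A (fun _ => (0 : ℂ)) w := by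
    have h := congrArg (fun x => x.2.2.2) hz
    simp only [Prod.snd_sum] at h
    exact h
  refine ⟨z, ?_, e2.symm, e3.symm, fun F hF => ?_⟩
  · rw [← Coord_last, ← e4]
    simp [wd, Fin.sum_univ_succ]
  · have h2 := Coord_eval A (lv A) ⟨F, hF⟩ w []
    rw [← e1] at h2
    have h3 : ((∑ i, z i • wd (Coord_E (lv A) 0) (Coord_E (lv A) 1) (Coord_E (lv A) 2) i)
        (⟨F, hF⟩ : Coord_M (lv A))).1 [] = ∑ i, z i * F (wl i) := by
      rw [LinearMap.sum_apply]
      simp only [LinearMap.smul_apply, Submodule.coe_sum, Finset.sum_apply, Submodule.coe_smul,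
        Pi.smul_apply, smul_eq_mul]
      exact Finset.sum_congr rfl fun i _ => by rw [Coord_wl]
    rw [h3] at h2
    exact h2.symm

end Pool.Agent.Ins
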