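import Pool.Agent.Ins.Stmts

/-!
# Module EXPAND
-/

namespace Pool.Agent.Ins

open Matrix LaurentPolynomial Filter Topology Pool.Agent.B4

variable {n : ℕ}

private theorem Expand_ev_T (A : ℂˣ) (k : ℤ) : ev A (T k) = ((A ^ k : ℂˣ) : ℂ) := by
  unfold ev
  rw [LaurentPolynomial.eval₂_T]

private theorem Expand_ev_lv (A : ℂˣ) : ev A (-T 2 - T (-2)) = lv A := by
  rw [map_sub, map_neg, Expand_ev_T, Expand_ev_T]
  unfold lv
  have h1 : ((A ^ (2 : ℤ) : ℂˣ) : ℂ) = (A : ℂ) ^ 2 := by
    norm_cast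
  have h2 : ((A ^ (-2 : ℤ) : ℂˣ) : ℂ) = ((A : ℂ)⁻¹) ^ 2 := by
    rw [_root_.zpow_neg, Units.val_inv_eq_inv_val, h1, inv_pow]
  rw [h1, h2]

/-- the sum over the states -/
private noncomputable def Expand_S (A : ℂˣ) (D : Diagram n) (v : List (Fin 3)) : ℂ :=
  ∑ s : Fin n → Bool, wt A D s * lv A ^ kc D (ways s) v

private theorem Expand_bracket (h : St_Kc) (A : ℂˣ) (D : Diagram n) :
    lv A * ev A D.bracket = Expand_S A D [] := by
  obtain ⟨-, h1, h2, -, -⟩ := h
  unfold Diagram.bracket Expand_S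
  rw [map_sum, Finset.mul_sum]
  refine Finset.sum_congr rfl fun s _ => ?_
  have h3 : 1 ≤ D.curves (ways s) := by
    rw [← h2 n D (ways s)]
    exact h1 n D (ways s) []
  have h4 : D.curves (fun x => if s x then Way.along else Way.turn) = D.curves (ways s) := rfl
  rw [map_mul, map_pow, Expand_ev_lv, map_prod, h2, h4]
  have h5 : (∏ x, ev A (T (if s x then (D.sign x : ℤ) else -(D.sign x : ℤ)))) = wt A D s := by
    unfold wt
    refine Finset.prod_congr rfl fun x _ => ?_
    rw [Expand_ev_T]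
  rw [h5]
  obtain ⟨m, hm⟩ : ∃ m, D.curves (ways s) = m + 1 := ⟨D.curves (ways s) - 1, by omega⟩
  rw [hm, Nat.add_sub_cancel, pow_succ]
  ring

private theorem Expand_ways (b : Bool) (s : Fin n → Bool) :
    ways (Fin.cons b s : Fin (n + 1) → Bool) =
      Fin.cons (if b then Way.along else Way.turn) (ways s) := by
  funext x
  refine Fin.cases ?_ (fun y => ?_) x
  · rfl
  · rfl

private theorem Expand_wt (A : ℂˣ) (D : Diagram n) (a : Fin 3) (ε : ℤˣ) (b : Bool)
    (s : Fin n → Bool) : wt A (D.push a ε) (Fin.cons b s : Fin (n + 1) → Bool) =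
      ((A ^ (if b then (ε : ℤ) else -(ε : ℤ)) : ℂˣ) : ℂ) * wt A D s := by
  unfold wt
  rw [Fin.prod_univ_succ]
  rfl

private theorem Expand_push (h : St_Kc) (A : ℂˣ) (D : Diagram n) (a : Fin 3) (ε : ℤˣ)
    (v : List (Fin 3)) : Expand_S A (D.push a ε) v =
      ((A ^ (ε : ℤ) : ℂˣ) : ℂ) * Expand_S A D v +
      ((A ^ (-(ε : ℤ)) : ℂˣ) : ℂ) * Expand_S A D (v ++ [a]) := by
  obtain ⟨-, -, -, h3, h4⟩ := h
  unfold Expand_S
  rw [← (Fin.consEquiv (fun _ : Fin (n + 1) => Bool)).sum_comp, Fintype.sum_prod_type,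
    Fintype.sum_bool, Finset.mul_sum, Finset.mul_sum]
  congr 1
  · refine Finset.sum_congr rfl fun s _ => ?_
    show wt A (D.push a ε) (Fin.cons true s : Fin (n + 1) → Bool) *
      lv A ^ kc (D.push a ε) (ways (Fin.cons true s : Fin (n + 1) → Bool)) v = _
    rw [Expand_wt, Expand_ways, if_pos rfl, if_pos rfl, h3]
    ring
  · refine Finset.sum_congr rfl fun s _ => ?_
    show wt A (D.push a ε) (Fin.cons false s : Fin (n + 1) → Bool) *
      lv A ^ kc (D.push a ε) (ways (Fin.cons false s : Fin (n + 1) → Bool)) v = _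
    rw [Expand_wt, Expand_ways, if_neg (by simp), if_neg (by simp), h4]
    ring

private theorem Expand_word (h : St_Kc) (A : ℂˣ) (D : Diagram n) (w : List (Fin 3 × ℤˣ)) :
    ∀ v : List (Fin 3), Expand_S A (D.insert w) v =
      ∑ s : Fin n → Bool, wt A D s *
        wordSum A (fun u => lv A ^ kc D (ways s) (v ++ u)) w := by
  induction w with
  | nil =>
    intro v
    show Expand_S A D v = _
    unfold Expand_S
    refine Finset.sum_congr rfl fun s _ => ?_
    show _ = wt A D s * (lv A ^ kc D (ways s) (v ++ []))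
    rw [List.append_nil]
  | cons l w ih =>
    intro v
    have h1 := Expand_push h A (D.insert w) l.1 l.2 v
    have h2 : Expand_S A (D.insert (l :: w)) v =
        Expand_S A ((D.insert w).push l.1 l.2) v := rfl
    rw [h2, h1, ih v, ih (v ++ [l.1]), Finset.mul_sum, Finset.mul_sum, ← Finset.sum_add_distrib]
    refine Finset.sum_congr rfl fun s _ => ?_
    have h5 : (fun u => lv A ^ kc D (ways s) (v ++ [l.1] ++ u)) =
        fun u => lv A ^ kc D (ways s) (v ++ (l.1 :: u)) := by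
      funext u
      rw [List.append_assoc]
      rfl
    show _ = wt A D s * (((A ^ (l.2 : ℤ) : ℂˣ) : ℂ) *
      wordSum A (fun u => lv A ^ kc D (ways s) (v ++ u)) w +
      ((A ^ (-(l.2 : ℤ)) : ℂˣ) : ℂ) *
        wordSum A (fun u => lv A ^ kc D (ways s) (v ++ (l.1 :: u))) w)
    rw [h5]
    ring

theorem thm_Expand (h : St_Kc) : St_Expand := by
  intro n D w A
  rw [Expand_bracket h A (D.insert w), Expand_word h A D w []]
  rfl

end Pool.Agent.Ins
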