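import Pool.Agent.Ins.Stmts

/-!
# Insertion of braids: the two representations are unitary
-/

namespace Pool.Agent.Ins

open Matrix Pool.Agent.B4

private theorem iso_lv_real {A : ℂˣ} (hA : (starRingEnd ℂ) (A : ℂ) * (A : ℂ) = 1) :
    (starRingEnd ℂ) (lv A) = lv A := by
  have e1 : (starRingEnd ℂ) (A : ℂ) = (A : ℂ)⁻¹ := eq_inv_of_mul_eq_one_left hA
  unfold lv
  rw [map_sub, map_neg, map_pow, map_pow, map_inv₀, e1, inv_inv]
  ring

private theorem iso_unit {A : ℂˣ} (hA : (starRingEnd ℂ) (A : ℂ) * (A : ℂ) = 1) (k : ℤ) :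
    (starRingEnd ℂ) ((A ^ k : ℂˣ) : ℂ) * ((A ^ k : ℂˣ) : ℂ) = 1 := by
  push_cast
  rw [map_zpow₀, ← mul_zpow, hA, _root_.one_zpow]

private theorem iso_neg (A : ℂˣ) (k : ℤ) : ((A ^ (-k) : ℂˣ) : ℂ) = ((A ^ k : ℂˣ) : ℂ)⁻¹ := by
  rw [_root_.zpow_neg, Units.val_inv_eq_inv_val]

private theorem iso_loop (A : ℂˣ) (ε : ℤˣ) :
    ((A ^ (ε : ℤ) : ℂˣ) : ℂ) ^ 2 + (((A ^ (ε : ℤ) : ℂˣ) : ℂ)⁻¹) ^ 2 + lv A = 0 := by
  unfold lv
  rcases Int.units_eq_one_or ε with rfl | rfl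
  · simp only [Units.val_one, zpow_one]
    ring
  · simp only [Units.val_neg, Units.val_one, _root_.zpow_neg, zpow_one,
      Units.val_inv_eq_inv_val, inv_inv]
    ring

private theorem iso_det3 (A : ℂˣ) (w : List (Fin 3 × ℤˣ)) :
    (rep A (EE (lv A)) w).det = (-1) ^ w.length * (((A ^ expSum w : ℂˣ) : ℂ))⁻¹ := by
  induction w with
  | nil => simp [rep, expSum]
  | cons l w ih =>
    have h1 : rep A (EE (lv A)) (l :: w) = (((A ^ (l.2 : ℤ) : ℂˣ) : ℂ) •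
        (1 : Matrix (Fin 3) (Fin 3) ℂ) + ((A ^ (-(l.2 : ℤ)) : ℂˣ) : ℂ) • EE (lv A) l.1) *
          rep A (EE (lv A)) w := by
      simp [rep]
    have h2 : expSum (l :: w) = (l.2 : ℤ) + expSum w := by simp [expSum]
    rw [h1, Matrix.det_mul, ih, iso_neg, EE_det (Units.ne_zero _) (iso_loop A l.2), h2, _root_.zpow_add,
      Units.val_mul, mul_inv, List.length_cons, pow_succ]
    ring

private theorem iso_det2 (A : ℂˣ) (w : List (Fin 3 × ℤˣ)) :
    (rep A (FF (lv A)) w).det = (-1) ^ w.length * ((((A ^ expSum w : ℂˣ) : ℂ))⁻¹) ^ 2 := by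
  induction w with
  | nil => simp [rep, expSum]
  | cons l w ih =>
    have h1 : rep A (FF (lv A)) (l :: w) = (((A ^ (l.2 : ℤ) : ℂˣ) : ℂ) •
        (1 : Matrix (Fin 2) (Fin 2) ℂ) + ((A ^ (-(l.2 : ℤ)) : ℂˣ) : ℂ) • FF (lv A) l.1) *
          rep A (FF (lv A)) w := by
      simp [rep]
    have h2 : expSum (l :: w) = (l.2 : ℤ) + expSum w := by simp [expSum]
    rw [h1, Matrix.det_mul, ih, iso_neg, FF_det (Units.ne_zero _) (iso_loop A l.2), h2, _root_.zpow_add,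
      Units.val_mul, mul_inv, List.length_cons, pow_succ]
    ring

theorem thm_Iso : St_Iso := by
  intro A w
  refine ⟨fun hA => ⟨?_, ?_⟩, iso_det3 A w, iso_det2 A w⟩
  · unfold rep
    apply list_isom
    intro M hM
    obtain ⟨l, _, rfl⟩ := List.mem_map.mp hM
    rw [iso_neg]
    exact isom_of (EE_adj (iso_lv_real hA) _) (EE_sq _ _) (iso_unit hA _) (iso_loop A l.2)
  · unfold rep
    apply list_isom
    intro M hM
    obtain ⟨l, _, rfl⟩ := List.mem_map.mp hM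
    rw [iso_neg]
    exact isom_of (FF_adj (iso_lv_real hA) _) (FF_sq _ _) (iso_unit hA _) (iso_loop A l.2)

end Pool.Agent.Ins
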