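import Pool.Agent.Ins.Stmts

/-! Module Kc of the insertion theorem: bookkeeping for `kc`. -/

namespace Pool.Agent.Ins

variable {n : ℕ}

private theorem Kc_mat_cons (a : Fin 3) (u : List (Fin 3)) :
    mat (a :: u) = W a .turn * mat u := by
  simp [mat]

private theorem Kc_mat_snoc (a : Fin 3) (u : List (Fin 3)) :
    mat (u ++ [a]) = mat u * W a .turn := by
  simp [mat]

private theorem Kc_curves_pos (D : Diagram n) (c : Fin n → Way) : 1 ≤ D.curves c := by
  unfold Diagram.curves
  have : Nonempty (Quot fun p q : Tip n => q = join c p ∨ q = D.arc p) :=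
    ⟨Quot.mk _ (.inl 0, true)⟩
  have : Finite (Quot fun p q : Tip n => q = join c p ∨ q = D.arc p) := inferInstance
  exact Nat.card_pos

private theorem Kc_real (hP : St_Push) (D : Diagram n) (c : Fin n → Way) (u : List (Fin 3)) :
    ∃ (m : ℕ) (D' : Diagram m) (c' : Fin m → Way), theta D' c' = mat u * theta D c := by
  induction u with
  | nil => exact ⟨n, D, c, by simp [mat]⟩
  | cons a u ih =>
    obtain ⟨m, D', c', h⟩ := ih
    refine ⟨m + 1, D'.push a 1, Fin.cons .turn c', ?_⟩
    rw [hP m D' a 1 .turn c', h, Kc_mat_cons, Matrix.mul_assoc]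

private theorem Kc_pow (hC : St_Close) (hP : St_Push) (D : Diagram n) (c : Fin n → Way)
    (u : List (Fin 3)) : ∃ k, 1 ≤ k ∧ 2 ^ k = Matrix.trace (mat u * theta D c) := by
  obtain ⟨m, D', c', h⟩ := Kc_real hP D c u
  exact ⟨D'.curves c', Kc_curves_pos D' c', by rw [hC m D' c', h]⟩

theorem thm_Kc (hC : St_Close) (hP : St_Push) : St_Kc := by
  refine ⟨?_, ?_, ?_, ?_, ?_⟩
  · intro n D c u
    obtain ⟨k, -, h⟩ := Kc_pow hC hP D c u
    have : kc D c u = k := by
      unfold kc
      rw [← h, Nat.log_pow (by norm_num)]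
    rw [this, h]
  · intro n D c u
    obtain ⟨k, hk, h⟩ := Kc_pow hC hP D c u
    have : kc D c u = k := by
      unfold kc
      rw [← h, Nat.log_pow (by norm_num)]
    omega
  · intro n D c
    have h1 : mat [] * theta D c = theta D c := by simp [mat]
    unfold kc
    rw [h1, ← hC n D c, Nat.log_pow (by norm_num)]
  · intro n D a ε c u
    unfold kc
    rw [hP n D a ε .along c]
    have h1 : W a .along * theta D c = theta D c := by simp [W]
    rw [h1]
  · intro n D a ε c u
    unfold kc
    rw [hP n D a ε .turn c, Kc_mat_snoc, Matrix.mul_assoc]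

end Pool.Agent.Ins
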