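import Pool.Agent.Ins.Stmts

/-!
# Knots: gates, parity, the value at `1`
-/

set_option autoImplicit false

namespace Pool.Agent.Ins

open Matrix LaurentPolynomial

variable {n : ℕ}

/-! ### every cycle meets a gate -/

private theorem knot_gate_step (D : Diagram n) (a : Fin 3) (ε : ℤˣ) (i : ℕ) :
    ∀ (s : Site n) (b : Fin 4), ((D.push a ε).next ^ i) (up s) = .inl b →
      ∃ a' : Fin 4, D.next.SameCycle s (.inl a') := by
  induction i with
  | zero =>
    intro s b h
    rw [pow_zero, Equiv.Perm.one_apply] at h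
    rcases s with c | ⟨x, j⟩
    · exact ⟨c, Equiv.Perm.SameCycle.refl _ _⟩
    · simp [up] at h
  | succ i ih =>
    intro s b h
    rw [pow_succ, Equiv.Perm.mul_apply] at h
    have h1 : (D.push a ε).next (up s) = redirect a (D.next s) := by
      rcases s with c | ⟨x, j⟩ <;> rfl
    rw [h1] at h
    rcases h2 : D.next s with c | ⟨x, j⟩
    · refine ⟨c, ?_⟩
      rw [← h2]
      exact Equiv.Perm.sameCycle_apply_right.mpr (Equiv.Perm.SameCycle.refl _ _)
    · rw [h2] at h
      obtain ⟨a', ha'⟩ := ih (.inr (x, j)) b h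
      refine ⟨a', ?_⟩
      rw [← h2] at ha'
      exact Equiv.Perm.sameCycle_apply_left.mp ha'

private theorem knot_gate (D : Diagram n) (w : List (Fin 3 × ℤˣ)) :
    (∀ s, ∃ a : Fin 4, (D.insert w).next.SameCycle s (.inl a)) →
      ∀ s, ∃ a : Fin 4, D.next.SameCycle s (.inl a) := by
  induction w with
  | nil => exact fun h => h
  | cons l w ih =>
    intro h
    apply ih
    intro s
    obtain ⟨b, hb⟩ := h (up s)
    obtain ⟨i, hi⟩ := hb.exists_nat_pow_eq
    exact knot_gate_step (D.insert w) l.1 l.2 i s b hi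

/-! ### one curve -/

private theorem knot_curves (D : Diagram n) (hD : D.IsKnot) :
    D.curves (fun _ => .keep) = 1 := by
  unfold Diagram.curves
  set r : Tip n → Tip n → Prop :=
    fun p q => q = join (fun _ => Way.keep) p ∨ q = D.arc p with hr
  have e1 : ∀ s, Quot.mk r (s, false) = Quot.mk r (s, true) := by
    intro s
    apply Quot.sound
    left
    rcases s with c | ⟨x, j⟩ <;> rfl
  have e2 : ∀ s, Quot.mk r (D.next s, true) = Quot.mk r (s, true) := by
    intro s
    rw [← e1]
    have h : r (s, true) (D.next s, false) := Or.inr rfl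
    exact (Quot.sound h).symm
  have e3 : ∀ (i : ℕ) (s : Site n), Quot.mk r ((D.next ^ i) s, true) = Quot.mk r (s, true) := by
    intro i
    induction i with
    | zero => exact fun s => rfl
    | succ i ih =>
      intro s
      rw [pow_succ, Equiv.Perm.mul_apply, ih, e2]
  have e4 : ∀ p q : Tip n, Quot.mk r p = Quot.mk r q := by
    have e5 : ∀ p : Tip n, Quot.mk r p = Quot.mk r (.inl 0, true) := by
      rintro ⟨s, b⟩
      have e6 : Quot.mk r (s, b) = Quot.mk r (s, true) := by
        cases b
        · exact e1 s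
        · rfl
      obtain ⟨i, hi⟩ := (hD s (.inl 0)).exists_nat_pow_eq
      rw [e6, ← e3 i s, hi]
    intro p q
    rw [e5 p, e5 q]
  have : Subsingleton (Quot r) := by
    constructor
    intro x y
    induction x using Quot.ind
    induction y using Quot.ind
    exact e4 _ _
  have : Nonempty (Quot r) := ⟨Quot.mk r (.inl 0, true)⟩
  exact Nat.card_eq_one_iff_unique.mpr ⟨inferInstance, inferInstance⟩

/-! ### the matrices of permutations -/

private theorem knot_permM_mul (σ τ : Equiv.Perm (Fin 4)) :
    permM σ * permM τ = permM (σ * τ) := by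
  funext x y
  rw [Matrix.mul_apply, Finset.sum_eq_single (fun a => x (σ a))]
  · by_cases h : ∀ a, y a = x (σ (τ a))
    · simp [permM, Equiv.Perm.mul_apply, h]
    · have h' : ¬ ∀ a, y a = x ((σ * τ) a) := h
      simp only [permM]
      rw [if_neg h, if_neg h', mul_zero]
  · intro z _ hz
    have : ¬ ∀ a, z a = x (σ a) := fun h => hz (funext h)
    simp [permM, this]
  · intro h
    exact absurd (Finset.mem_univ _) h

private theorem knot_permM_one : permM 1 = 1 := by
  funext x y
  rw [Matrix.one_apply]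
  unfold permM
  simp only [Equiv.Perm.one_apply]
  by_cases h : x = y
  · simp [h]
  · have : ¬ ∀ a, y a = x a := fun h' => h (funext h').symm
    simp [h, this]

private theorem knot_sign : ∀ π : Equiv.Perm (Fin 4),
    (∑ x : Fin 4 → Bool, if ∀ a, x a = x (π a) then 1 else 0) = 2 →
      Equiv.Perm.sign π = -1 := by
  decide +kernel

private theorem knot_keep : (fun _ => Way.keep : Fin (n + 1) → Way) =
    Fin.cons Way.keep (fun _ : Fin n => Way.keep) := by
  funext x
  refine Fin.cases ?_ (fun y => ?_) x <;> rfl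

private theorem knot_theta (hP : St_Push) (D : Diagram n) (w : List (Fin 3 × ℤˣ)) :
    ∃ σ : Equiv.Perm (Fin 4), Equiv.Perm.sign σ = (-1) ^ w.length ∧
      theta (D.insert w) (fun _ => .keep) = permM σ * theta D (fun _ => .keep) := by
  induction w with
  | nil =>
    refine ⟨1, by simp, ?_⟩
    rw [knot_permM_one, one_mul]
    rfl
  | cons l w ih =>
    obtain ⟨σ, hσ, h⟩ := ih
    refine ⟨Equiv.swap l.1.castSucc l.1.succ * σ, ?_, ?_⟩
    · rw [map_mul, hσ, Equiv.Perm.sign_swap (Fin.castSucc_lt_succ (i := l.1)).ne,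
        List.length_cons, pow_succ]
      exact mul_comm _ _
    · have h2 := hP _ (D.insert w) l.1 l.2 .keep (fun _ => .keep)
      rw [h] at h2
      have h3 : theta (D.insert (l :: w)) (fun _ => .keep) =
          theta ((D.insert w).push l.1 l.2) (Fin.cons Way.keep (fun _ => Way.keep)) := by
        rw [← knot_keep]
        rfl
      rw [h3, h2, ← knot_permM_mul, Matrix.mul_assoc]
      rfl

/-! ### the value at `1` -/

private theorem knot_pow_unit (u : ℤˣ) : (-1 : ℤˣ) ^ (u : ℤ) = -1 := by
  rcases Int.units_eq_one_or u with h | h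
  · rw [h]; rfl
  · rw [h]; rfl

private theorem knot_pow_writhe {m : ℕ} (f : Fin m → ℤˣ) :
    (-1 : ℤˣ) ^ (∑ x, (f x : ℤ)) = (-1) ^ m := by
  induction m with
  | zero => simp
  | succ m ih =>
    rw [Fin.sum_univ_succ, _root_.zpow_add, ih (fun x => f x.succ), pow_succ', knot_pow_unit]

private theorem knot_ev_T (k : ℤ) : ev 1 (T k) = 1 := by
  simp [ev]

private theorem knot_ev_loop : ev 1 (-T 2 - T (-2)) = -2 := by
  rw [map_sub, map_neg, knot_ev_T, knot_ev_T]
  norm_num

private theorem knot_ev_C (k : ℤ) : ev 1 (C k) = (k : ℂ) := by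
  simp [ev]

private theorem knot_bracket (hK : St_Kc) (D : Diagram n) :
    (-2 : ℂ) * ev 1 D.bracket = ((∑ s : Fin n → Bool, (-2 : ℤ) ^ kc D (ways s) [] : ℤ) : ℂ) := by
  unfold Diagram.bracket
  rw [map_sum, Finset.mul_sum, Int.cast_sum]
  refine Finset.sum_congr rfl fun s _ => ?_
  rw [map_mul, map_prod, Finset.prod_eq_one (fun x _ => knot_ev_T _), one_mul, map_pow,
    knot_ev_loop]
  have h1 : 1 ≤ kc D (ways s) [] := hK.2.1 n D (ways s) []
  have h2 : kc D (ways s) [] = D.curves (ways s) := hK.2.2.1 n D (ways s)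
  have h3 : D.curves (fun x => if s x then .along else .turn) = kc D (ways s) [] := h2.symm
  rw [h3]
  obtain ⟨k, hk⟩ := Nat.exists_eq_add_of_le h1
  rw [hk, Nat.add_sub_cancel_left, ← pow_succ', add_comm 1 k]
  push_cast
  rfl

theorem thm_Knot (hC : St_Close) (hP : St_Push) (hK : St_Kc) (hS : St_States) : St_Knot := by
  intro n D w hD
  have hcurves : (D.insert w).curves (fun _ => .keep) = 1 := knot_curves _ hD
  refine ⟨?_, ?_, ?_⟩
  · exact knot_gate D w fun s => ⟨0, hD s (.inl 0)⟩
  · intro τ hτ
    obtain ⟨σ, hσ, h⟩ := knot_theta hP D w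
    rw [hτ, knot_permM_mul] at h
    have h1 := hC _ (D.insert w) (fun _ => .keep)
    rw [hcurves, h, pow_one] at h1
    have h2 : Equiv.Perm.sign (σ * τ) = -1 := by
      apply knot_sign
      exact h1.symm
    rw [map_mul, hσ] at h2
    have h3 : Equiv.Perm.sign τ * (-1) ^ w.length = -1 := by rw [mul_comm]; exact h2
    have h4 := congrArg (fun u : ℤˣ => (u : ℤ)) h3
    simpa using h4
  · have h1 := knot_bracket hK (D.insert w)
    rw [hS] at h1
    have h2 : kc (D.insert w) (fun _ => .keep) [] = 1 := by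
      rw [hK.2.2.1]; exact hcurves
    rw [h2] at h1
    have h3 : ev 1 (D.insert w).bracket = (-1 : ℂ) ^ (n + w.length) := by
      have h4 : (-2 : ℂ) * ev 1 (D.insert w).bracket = -2 * (-1 : ℂ) ^ (n + w.length) := by
        rw [h1]; push_cast; ring
      exact mul_left_cancel₀ (by norm_num) h4
    unfold Diagram.normalized
    rw [map_mul, map_mul, knot_ev_T, h3, knot_ev_C]
    unfold Diagram.writhe
    rw [knot_pow_writhe]
    push_cast
    rw [mul_one, ← mul_pow]
    norm_num

end Pool.Agent.Ins
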