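import Pool.Agent.Ins.Stmts

/-!
# Insertion theorem: colourings after one inserted crossing (PUSH)
-/

set_option autoImplicit false

namespace Pool.Agent.Ins

open Matrix Pool.Agent.B4

open scoped Classical

variable {n : ℕ}

/-- the relation between the colours above and below a new crossing -/
private def pushRel (a : Fin 3) : Way → Col → Col → Prop
  | .keep, x', x => ∀ b, x b = x' (Equiv.swap a.castSucc a.succ b)
  | .along, x', x => x' = x
  | .turn, x', x => x' a.castSucc = x' a.succ ∧ x a.castSucc = x a.succ ∧
      ∀ b, b ≠ a.castSucc → b ≠ a.succ → x' b = x b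

private theorem push_W (a : Fin 3) (v : Way) (x' x : Col) :
    W a v x' x = if pushRel a v x' x then 1 else 0 := by
  cases v with
  | keep => exact if_congr Iff.rfl rfl rfl
  | along =>
    show (1 : Matrix Col Col ℕ) x' x = _
    rw [Matrix.one_apply]
    exact if_congr Iff.rfl rfl rfl
  | turn => exact if_congr Iff.rfl rfl rfl

private def pushPull (a : Fin 3) (h : Tip (n + 1) → Bool) : Tip n → Bool
  | (s, true) => h (up s, true)
  | (s, false) => h (redirect a s, false)

private def pushExt (a : Fin 3) (x' : Col) (h : Tip n → Bool) : Tip (n + 1) → Bool
  | (.inl g, true) => h (.inl g, true)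
  | (.inl g, false) => x' g
  | (.inr (k, i), b) => Fin.cases
      (if b then (if i then x' a.castSucc else x' a.succ) else
        (if i then h (.inl a.succ, false) else h (.inl a.castSucc, false)))
      (fun k => h (.inr (k, i), b)) k

/-- the conditions on colourings, without the colours arriving at the gates -/
private def pushQ (D : Diagram n) (c : Fin n → Way) (y : Col) (h : Tip n → Bool) : Prop :=
  (∀ p, h (D.arc p) = h p) ∧
    (∀ k i b, h (join c (.inr (k, i), b)) = h (.inr (k, i), b)) ∧ ∀ a, h (.inl a, true) = y a

private theorem push_arc_up (D : Diagram n) (a : Fin 3) (ε : ℤˣ) (s : Site n) :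
    (D.push a ε).arc (up s, true) = (redirect a (D.next s), false) := by
  rcases s with b | ⟨x, i⟩
  · rfl
  · rfl

private theorem push_arc_new (D : Diagram n) (a : Fin 3) (ε : ℤˣ) (i : Bool) :
    (D.push a ε).arc (.inr (0, i), true) =
      ((if i then .inl a.castSucc else .inl a.succ : Site (n + 1)), false) := rfl

private theorem push_site (s : Site (n + 1)) :
    (∃ i, s = .inr (0, i)) ∨ ∃ t : Site n, s = up t := by
  rcases s with b | ⟨x, i⟩
  · exact Or.inr ⟨.inl b, rfl⟩
  · refine Fin.cases (Or.inl ⟨i, rfl⟩) (fun y => Or.inr ⟨.inr (y, i), rfl⟩) x

/-- invariance under the arcs only has to be checked on the ends which leave a site -/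
private theorem push_arc_iff {m : ℕ} (D : Diagram m) (h : Tip m → Bool) :
    (∀ p, h (D.arc p) = h p) ↔ ∀ s, h (D.next s, false) = h (s, true) := by
  constructor
  · intro H s
    exact H (s, true)
  · rintro H ⟨s, b⟩
    cases b
    · have h1 := H (D.next.symm s)
      rw [Equiv.apply_symm_apply] at h1
      exact h1.symm
    · exact H s

private theorem push_ne (a : Fin 3) : a.succ ≠ a.castSucc :=
  (Fin.castSucc_lt_succ (i := a)).ne'

private theorem push_redir_l (a : Fin 3) :
    redirect a (.inl a.castSucc : Site n) = .inr (0, false) := by
  simp [redirect]

private theorem push_redir_r (a : Fin 3) :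
    redirect a (.inl a.succ : Site n) = .inr (0, true) := by
  simp [redirect, push_ne a]

private theorem push_redir_o (a : Fin 3) (g : Fin 4) (h1 : g ≠ a.castSucc) (h2 : g ≠ a.succ) :
    redirect a (.inl g : Site n) = .inl g := by
  simp [redirect, h1, h2]

/-- the condition at the new crossing, in terms of the colours of its four ends -/
private theorem push_new (a : Fin 3) (v : Way) (x' x : Col)
    (ho : ∀ g, g ≠ a.castSucc → g ≠ a.succ → x' g = x g) :
    pushRel a v x' x ↔ match v with
      | .keep => x a.castSucc = x' a.succ ∧ x a.succ = x' a.castSucc
      | .along => x a.castSucc = x' a.castSucc ∧ x a.succ = x' a.succ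
      | .turn => x a.castSucc = x a.succ ∧ x' a.succ = x' a.castSucc := by
  cases v with
  | keep =>
    constructor
    · intro h
      have h1 := h a.castSucc
      have h2 := h a.succ
      rw [Equiv.swap_apply_left] at h1
      rw [Equiv.swap_apply_right] at h2
      exact ⟨h1, h2⟩
    · rintro ⟨h1, h2⟩ b
      by_cases hb : b = a.castSucc
      · rw [hb, Equiv.swap_apply_left]
        exact h1
      · by_cases hb' : b = a.succ
        · rw [hb', Equiv.swap_apply_right]
          exact h2
        · rw [Equiv.swap_apply_of_ne_of_ne hb hb']
          exact (ho b hb hb').symm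
  | along =>
    constructor
    · intro h
      have h' : x' = x := h
      rw [h']
      exact ⟨rfl, rfl⟩
    · rintro ⟨h1, h2⟩
      show x' = x
      funext b
      by_cases hb : b = a.castSucc
      · rw [hb]
        exact h1.symm
      · by_cases hb' : b = a.succ
        · rw [hb']
          exact h2.symm
        · exact ho b hb hb'
  | turn =>
    constructor
    · rintro ⟨h1, h2, -⟩
      exact ⟨h2, h1.symm⟩
    · rintro ⟨h1, h2⟩
      exact ⟨h2.symm, h1, ho⟩

private theorem push_rel_o (a : Fin 3) (v : Way) (x' x : Col) (h : pushRel a v x' x) :
    ∀ g, g ≠ a.castSucc → g ≠ a.succ → x' g = x g := by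
  intro g h1 h2
  cases v with
  | keep =>
    have h3 := h g
    rw [Equiv.swap_apply_of_ne_of_ne h1 h2] at h3
    exact h3.symm
  | along =>
    have h' : x' = x := h
    rw [h']
  | turn => exact h.2.2 g h1 h2

/-- the equivalence of colourings -/
private theorem push_card (D : Diagram n) (a : Fin 3) (ε : ℤˣ) (v : Way) (c : Fin n → Way)
    (x' y : Col) :
    Nat.card {h : Tip (n + 1) → Bool // (∀ p, h ((D.push a ε).arc p) = h p) ∧
      (∀ k i b, h (join (Fin.cons v c : Fin (n + 1) → Way) (.inr (k, i), b)) =
        h (.inr (k, i), b)) ∧
      (∀ g, h (.inl g, false) = x' g) ∧ ∀ g, h (.inl g, true) = y g} =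
    Nat.card {h : Tip n → Bool // pushRel a v x' (fun g => h (.inl g, false)) ∧
      pushQ D c y h} := by
  refine Nat.card_congr
    { toFun := fun h => ⟨pushPull a h.1, ?_⟩
      invFun := fun h => ⟨pushExt a x' h.1, ?_⟩
      left_inv := ?_
      right_inv := ?_ }
  · obtain ⟨h, h1, h2, h3, h4⟩ := h
    have hl : pushPull a h (.inl a.castSucc, false) = h (.inr (0, false), false) := by
      show h (redirect a (.inl a.castSucc), false) = _
      rw [push_redir_l]
    have hr : pushPull a h (.inl a.succ, false) = h (.inr (0, true), false) := by
      show h (redirect a (.inl a.succ), false) = _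
      rw [push_redir_r]
    have ho : ∀ g, g ≠ a.castSucc → g ≠ a.succ → x' g = pushPull a h (.inl g, false) := by
      intro g hg hg'
      show _ = h (redirect a (.inl g), false)
      rw [push_redir_o a g hg hg', h3]
    have hf : h (.inr (0, false), true) = x' a.succ := by
      have h5 := h1 (.inr (0, false), true)
      rw [push_arc_new] at h5
      rw [← h5]
      exact h3 _
    have ht : h (.inr (0, true), true) = x' a.castSucc := by
      have h5 := h1 (.inr (0, true), true)
      rw [push_arc_new] at h5
      rw [← h5]
      exact h3 _
    refine ⟨?_, ?_, ?_, ?_⟩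
    · rw [push_new a v x' _ ho]
      cases v with
      | keep =>
        have e1 := h2 0 false false
        have e2 := h2 0 true false
        refine ⟨?_, ?_⟩
        · rw [hl, ← hf]
          exact e1.symm
        · rw [hr, ← ht]
          exact e2.symm
      | along =>
        have e1 := h2 0 false false
        have e2 := h2 0 true false
        refine ⟨?_, ?_⟩
        · rw [hl, ← ht]
          exact e1.symm
        · rw [hr, ← hf]
          exact e2.symm
      | turn =>
        have e1 := h2 0 false false
        have e2 := h2 0 false true
        refine ⟨?_, ?_⟩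
        · rw [hl, hr]
          exact e1.symm
        · rw [← hf, ← ht]
          exact e2.symm
    · rw [push_arc_iff]
      intro s
      show h (redirect a (D.next s), false) = h (up s, true)
      rw [← push_arc_up D a ε s]
      exact h1 _
    · intro k i b
      have e := h2 k.succ i b
      have key : ∀ (j : Bool) (b' : Bool), pushPull a h (.inr (k, j), b') =
          h (.inr (k.succ, j), b') := by
        intro j b'
        cases b' <;> rfl
      have e' : join (Fin.cons v c : Fin (n + 1) → Way) (.inr (k.succ, i), b) =
          match c k with
          | .keep => (.inr (k.succ, i), !b)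
          | .along => (.inr (k.succ, !i), !b)
          | .turn => (.inr (k.succ, !i), b) := rfl
      rw [e'] at e
      rw [key]
      show pushPull a h (match c k with
          | .keep => (.inr (k, i), !b)
          | .along => (.inr (k, !i), !b)
          | .turn => (.inr (k, !i), b)) = _
      cases hc : c k with
      | keep =>
        rw [hc] at e
        simp only at e ⊢
        rw [key]
        exact e
      | along =>
        rw [hc] at e
        simp only at e ⊢
        rw [key]
        exact e
      | turn =>
        rw [hc] at e
        simp only at e ⊢
        rw [key]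
        exact e
    · intro g
      exact h4 g
  · obtain ⟨h, hR, h1, h2, h4⟩ := h
    have ho := push_rel_o a v x' _ hR
    rw [push_new a v x' _ ho] at hR
    rw [push_arc_iff] at h1
    have hred : ∀ t : Site n, pushExt a x' h (redirect a t, false) = h (t, false) := by
      rintro (g | ⟨k, i⟩)
      · by_cases hg : g = a.castSucc
        · rw [hg, push_redir_l]
          rfl
        · by_cases hg' : g = a.succ
          · rw [hg', push_redir_r]
            rfl
          · rw [push_redir_o a g hg hg']
            exact ho g hg hg'
      · rfl
    have hup : ∀ t : Site n, pushExt a x' h (up t, true) = h (t, true) := by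
      rintro (g | ⟨k, i⟩)
      · rfl
      · rfl
    refine ⟨?_, ?_, ?_, ?_⟩
    · rw [push_arc_iff]
      intro s
      rcases push_site s with ⟨i, rfl⟩ | ⟨t, rfl⟩
      · have e := push_arc_new D a ε i
        show pushExt a x' h ((D.push a ε).arc (.inr (0, i), true)) = _
        rw [e]
        cases i <;> rfl
      · show pushExt a x' h ((D.push a ε).arc (up t, true)) = _
        rw [push_arc_up, hred, hup]
        exact h1 t
    · intro k i b
      refine Fin.cases ?_ (fun k => ?_) k
      · cases v with
        | keep =>
          obtain ⟨e1, e2⟩ := hR
          cases i <;> cases b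
          · exact e1.symm
          · exact e1
          · exact e2.symm
          · exact e2
        | along =>
          obtain ⟨e1, e2⟩ := hR
          cases i <;> cases b
          · exact e1.symm
          · exact e2
          · exact e2.symm
          · exact e1
        | turn =>
          obtain ⟨e1, e2⟩ := hR
          cases i <;> cases b
          · exact e1.symm
          · exact e2.symm
          · exact e1
          · exact e2
      · have e := h2 k i b
        have key : ∀ (j : Bool) (b' : Bool), pushExt a x' h (.inr (k.succ, j), b') =
            h (.inr (k, j), b') := by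
          intro j b'
          rfl
        have e' : join c (.inr (k, i), b) =
            match c k with
            | .keep => (.inr (k, i), !b)
            | .along => (.inr (k, !i), !b)
            | .turn => (.inr (k, !i), b) := rfl
        rw [e'] at e
        rw [key]
        show pushExt a x' h (match c k with
            | .keep => (.inr (k.succ, i), !b)
            | .along => (.inr (k.succ, !i), !b)
            | .turn => (.inr (k.succ, !i), b)) = _
        cases hc : c k with
        | keep =>
          rw [hc] at e
          simp only at e ⊢
          rw [key]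
          exact e
        | along =>
          rw [hc] at e
          simp only at e ⊢
          rw [key]
          exact e
        | turn =>
          rw [hc] at e
          simp only at e ⊢
          rw [key]
          exact e
    · intro g
      rfl
    · intro g
      exact h4 g
  · rintro ⟨h, h1, h2, h3, h4⟩
    apply Subtype.ext
    funext p
    obtain ⟨s, b⟩ := p
    rcases push_site s with ⟨i, rfl⟩ | ⟨t, rfl⟩
    · cases b
      · cases i
        · show pushPull a h (.inl a.castSucc, false) = _
          show h (redirect a (.inl a.castSucc), false) = _
          rw [push_redir_l]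
        · show h (redirect a (.inl a.succ), false) = _
          rw [push_redir_r]
      · have h5 := h1 (.inr (0, i), true)
        rw [push_arc_new] at h5
        show pushExt a x' (pushPull a h) (.inr (0, i), true) = h (.inr (0, i), true)
        rw [← h5]
        cases i
        · exact (h3 _).symm
        · exact (h3 _).symm
    · rcases t with g | ⟨k, i⟩
      · cases b
        · exact (h3 g).symm
        · rfl
      · cases b <;> rfl
  · rintro ⟨h, hR, h1, h2, h4⟩
    have ho := push_rel_o a v x' _ hR
    apply Subtype.ext
    funext p
    obtain ⟨s, b⟩ := p
    cases b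
    · show pushExt a x' h (redirect a s, false) = h (s, false)
      rcases s with g | ⟨k, i⟩
      · by_cases hg : g = a.castSucc
        · rw [hg, push_redir_l]
          rfl
        · by_cases hg' : g = a.succ
          · rw [hg', push_redir_r]
            rfl
          · rw [push_redir_o a g hg hg']
            exact ho g hg hg'
      · rfl
    · rcases s with g | ⟨k, i⟩ <;> rfl

theorem thm_Push : St_Push := by
  intro n D a ε v c
  ext x' y
  rw [Matrix.mul_apply]
  have h1 : theta (D.push a ε) (Fin.cons v c : Fin (n + 1) → Way) x' y =
      Nat.card {h : Tip n → Bool // pushRel a v x' (fun g => h (.inl g, false)) ∧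
        pushQ D c y h} := push_card D a ε v c x' y
  have h2 : ∀ x : Col, theta D c x y = (Finset.univ.filter (fun h : Tip n → Bool =>
      pushQ D c y h ∧ (fun g => h (.inl g, false)) = x)).card := by
    intro x
    show Nat.card {h : Tip n → Bool // _} = _
    rw [Nat.card_eq_fintype_card, Fintype.card_subtype]
    refine congrArg Finset.card (Finset.ext fun h => ?_)
    rw [Finset.mem_filter, Finset.mem_filter]
    constructor
    · rintro ⟨a0, a1, a2, a3, a4⟩
      exact ⟨a0, ⟨a1, a2, a4⟩, funext a3⟩
    · rintro ⟨a0, ⟨a1, a2, a4⟩, a3⟩
      exact ⟨a0, a1, a2, fun g => congrFun a3 g, a4⟩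
  rw [h1, Nat.card_eq_fintype_card, Fintype.card_subtype,
    Finset.card_eq_sum_card_fiberwise (f := fun (h : Tip n → Bool) (g : Fin 4) =>
      h (.inl g, false)) (t := Finset.univ) (fun _ _ => Finset.mem_coe.2 (Finset.mem_univ _))]
  refine Finset.sum_congr rfl (fun x _ => ?_)
  rw [push_W, h2]
  by_cases hx : pushRel a v x' x
  · rw [if_pos hx, one_mul]
    refine congrArg Finset.card (Finset.ext fun h => ?_)
    rw [Finset.mem_filter, Finset.mem_filter, Finset.mem_filter]
    constructor
    · rintro ⟨⟨a0, -, a2⟩, a3⟩
      exact ⟨a0, a2, a3⟩
    · rintro ⟨a0, a2, a3⟩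
      exact ⟨⟨a0, by rw [a3]; exact hx, a2⟩, a3⟩
  · rw [if_neg hx, zero_mul, Finset.card_eq_zero, Finset.filter_eq_empty_iff]
    intro h hh h3
    rw [Finset.mem_filter] at hh
    have h4 := hh.2.1
    rw [h3] at h4
    exact hx h4

end Pool.Agent.Ins
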