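import Pool.Agent.Ins.Stmts

/-!
# The kept diagram: the first return permutation of the gates
-/

namespace Pool.Agent.Ins

variable {n : ℕ}

/-- `a` is the first gate met going back from `s` -/
private def Return_R (D : Diagram n) (s : Site n) (a : Fin 4) : Prop :=
  ∃ i : ℕ, D.next.symm^[i] s = .inl a ∧ ∀ j < i, ∀ b, D.next.symm^[j] s ≠ .inl b

private lemma Return_fun (D : Diagram n) {s : Site n} {a a' : Fin 4} (h : Return_R D s a)
    (h' : Return_R D s a') : a = a' := by
  obtain ⟨i, h1, h2⟩ := h
  obtain ⟨i', h1', h2'⟩ := h'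
  rcases lt_trichotomy i i' with h | h | h
  · exact absurd h1 (h2' i h a)
  · subst h
    rw [h1] at h1'
    exact Sum.inl_injective h1'
  · exact absurd h1' (h2 i' h a')

private lemma Return_tot (D : Diagram n) (hD : ∀ s, ∃ a : Fin 4, D.next.SameCycle s (.inl a))
    (s : Site n) : ∃ a, Return_R D s a := by
  classical
  have hex : ∃ i : ℕ, ∃ a, D.next.symm^[i] s = .inl a := by
    obtain ⟨a, ha⟩ := hD s
    have h1 : (D.next⁻¹).SameCycle s (.inl a) := Equiv.Perm.sameCycle_inv.2 ha
    obtain ⟨i, -, hi⟩ := h1.exists_pow_eq'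
    refine ⟨i, a, ?_⟩
    rw [← hi, ← Equiv.Perm.iterate_eq_pow]
    rfl
  obtain ⟨a, ha⟩ := Nat.find_spec hex
  exact ⟨a, Nat.find hex, ha, fun j hj b hb => Nat.find_min hex hj ⟨b, hb⟩⟩

private lemma Return_gate (D : Diagram n) (a : Fin 4) : Return_R D (.inl a) a :=
  ⟨0, rfl, fun j hj => absurd hj (Nat.not_lt_zero j)⟩

private lemma Return_step (D : Diagram n) {s : Site n} {a : Fin 4}
    (h : Return_R D (D.next.symm s) a) (hs : ∀ b, s ≠ .inl b) : Return_R D s a := by
  obtain ⟨i, h1, h2⟩ := h
  refine ⟨i + 1, by rw [Function.iterate_succ_apply]; exact h1, fun j hj b => ?_⟩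
  cases j with
  | zero => exact hs b
  | succ j =>
    rw [Function.iterate_succ_apply]
    exact h2 j (by omega) b

private lemma Return_inj (D : Diagram n) {a a' b : Fin 4}
    (h : Return_R D (D.next.symm (.inl a)) b) (h' : Return_R D (D.next.symm (.inl a')) b) :
    a = a' := by
  have key : ∀ a a' : Fin 4, ∀ i i' : ℕ, i ≤ i' →
      D.next.symm^[i] (D.next.symm (.inl a)) = .inl b →
      D.next.symm^[i'] (D.next.symm (.inl a')) = .inl b →
      (∀ j < i', ∀ c, D.next.symm^[j] (D.next.symm (.inl a')) ≠ .inl c) → a = a' := by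
    intro a a' i i' hii h1 h1' h2'
    obtain ⟨k, rfl⟩ := Nat.exists_eq_add_of_le hii
    rw [← h1', Function.iterate_add_apply] at h1
    have h3 := (D.next.symm.injective.iterate i) h1
    cases k with
    | zero =>
      have h4 := D.next.symm.injective h3
      exact Sum.inl_injective h4
    | succ k =>
      rw [Function.iterate_succ_apply'] at h3
      have h4 := D.next.symm.injective h3
      exact absurd h4.symm (h2' k (by omega) a)
  obtain ⟨i, h1, h2⟩ := h
  obtain ⟨i', h1', h2'⟩ := h'
  rcases le_total i i' with hii | hii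
  · exact key a a' i i' hii h1 h1' h2'
  · exact (key a' a i' i hii h1' h1 h2).symm

private lemma Return_val (D : Diagram n) (y : Col) (h : Tip n → Bool)
    (h1 : ∀ p, h (D.arc p) = h p)
    (h2 : ∀ k i b, h (join (fun _ => Way.keep) (.inr (k, i), b)) = h (.inr (k, i), b))
    (h4 : ∀ a, h (.inl a, true) = y a) : ∀ (i : ℕ) (s : Site n) (a : Fin 4),
      D.next.symm^[i] s = .inl a → (∀ j < i, ∀ b, D.next.symm^[j] s ≠ .inl b) →
      h (s, true) = y a := by
  intro i
  induction i with
  | zero =>
    intro s a hs _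
    have : s = .inl a := hs
    rw [this]
    exact h4 a
  | succ i ih =>
    intro s a hs hj
    rw [Function.iterate_succ_apply] at hs
    have h5 := ih (D.next.symm s) a hs fun j hji b => by
      have := hj (j + 1) (by omega) b
      rwa [Function.iterate_succ_apply] at this
    rcases s with b | ⟨k, c⟩
    · exact absurd rfl (hj 0 (by omega) b)
    · have h6 : h (.inr (k, c), true) = h (.inr (k, c), false) := h2 k c false
      have h7 : h (D.next.symm (.inr (k, c)), true) = h (.inr (k, c), false) :=
        h1 (.inr (k, c), false)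
      rw [h6, ← h7, h5]

/-- **RETURN.** -/
theorem thm_Return : St_Return := by
  classical
  intro n D hD
  choose B hB using Return_tot D hD
  set ρ : Fin 4 → Fin 4 := fun a => B (D.next.symm (.inl a)) with hρ
  have hρi : Function.Injective ρ := by
    intro a a' h
    have h1 := hB (D.next.symm (.inl a))
    have h2 := hB (D.next.symm (.inl a'))
    have h3 : B (D.next.symm (.inl a)) = B (D.next.symm (.inl a')) := h
    rw [← h3] at h2
    exact Return_inj D h1 h2
  have hρb : Function.Bijective ρ := Finite.injective_iff_bijective.1 hρi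
  refine ⟨(Equiv.ofBijective ρ hρb).symm, ?_⟩
  ext x y
  have hC : (∀ a, y a = x ((Equiv.ofBijective ρ hρb).symm a)) ↔ ∀ b, x b = y (ρ b) := by
    constructor
    · intro h b
      have h1 := h (ρ b)
      have h2 : (Equiv.ofBijective ρ hρb).symm (ρ b) = b :=
        (Equiv.ofBijective ρ hρb).symm_apply_apply b
      rw [h2] at h1
      exact h1.symm
    · intro h a
      have h1 := h ((Equiv.ofBijective ρ hρb).symm a)
      have h2 : ρ ((Equiv.ofBijective ρ hρb).symm a) = a :=
        (Equiv.ofBijective ρ hρb).apply_symm_apply a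
      rw [h2] at h1
      exact h1.symm
  have hgate : ∀ a : Fin 4, B (.inl a) = a := fun a => Return_fun D (hB _) (Return_gate D a)
  have hpass : ∀ p : Fin n × Bool, B (.inr p) = B (D.next.symm (.inr p)) := fun p =>
    Return_fun D (hB _) (Return_step D (hB _) fun b => by simp)
  -- the colouring is determined
  have hdet : ∀ h : Tip n → Bool, (∀ p, h (D.arc p) = h p) →
      (∀ k i b, h (join (fun _ => Way.keep) (.inr (k, i), b)) = h (.inr (k, i), b)) →
      (∀ a, h (.inl a, true) = y a) → ∀ s, h (s, true) = y (B s) ∧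
        h (s, false) = y (B (D.next.symm s)) := by
    intro h h1 h2 h4 s
    have hv : ∀ s, h (s, true) = y (B s) := by
      intro s
      obtain ⟨i, hi, hj⟩ := hB s
      exact Return_val D y h h1 h2 h4 i s _ hi hj
    refine ⟨hv s, ?_⟩
    rw [← hv (D.next.symm s)]
    exact (h1 (s, false)).symm
  unfold theta permM
  by_cases hc : ∀ a, y a = x ((Equiv.ofBijective ρ hρb).symm a)
  · rw [if_pos hc, Nat.card_eq_one_iff_unique]
    have hc' := hC.1 hc
    refine ⟨⟨?_⟩, ⟨⟨fun p => if p.2 then y (B p.1) else y (B (D.next.symm p.1)), ?_, ?_, ?_, ?_⟩⟩⟩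
    · rintro ⟨h, h1, h2, h3, h4⟩ ⟨h', h1', h2', h3', h4'⟩
      rw [Subtype.mk.injEq]
      funext p
      obtain ⟨s, b⟩ := p
      cases b
      · rw [(hdet h h1 h2 h4 s).2, (hdet h' h1' h2' h4' s).2]
      · rw [(hdet h h1 h2 h4 s).1, (hdet h' h1' h2' h4' s).1]
    · rintro ⟨s, b⟩
      cases b
      · simp [Diagram.arc]
      · simp [Diagram.arc]
    · intro k i b
      have h5 := hpass (k, i)
      cases b
      · simp [join, h5]
      · simp [join, h5]
    · intro a
      simp only [Bool.false_eq_true, if_false]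
      exact (hc' a).symm
    · intro a
      simp [hgate]
  · rw [if_neg hc]
    have : IsEmpty {h : Tip n → Bool // (∀ p, h (D.arc p) = h p) ∧
        (∀ k i b, h (join (fun _ => Way.keep) (.inr (k, i), b)) = h (.inr (k, i), b)) ∧
        (∀ a, h (.inl a, false) = x a) ∧ ∀ a, h (.inl a, true) = y a} := by
      refine ⟨fun ⟨h, h1, h2, h3, h4⟩ => hc (hC.2 fun b => ?_)⟩
      rw [← h3 b, (hdet h h1 h2 h4 (.inl b)).2]
    exact Nat.card_of_isEmpty

end Pool.Agent.Ins
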