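import Pool.Agent.Ins.Stmts

/-!
# The sum over the states reduces to the diagram with all crossings kept
-/

namespace Pool.Agent.Ins

/-- The three-term relation for the curves with turnbacks inserted. -/
private theorem States_three (hK : St_Kc) (hT : St_Three) (u : List (Fin 3)) :
    ∀ (n : ℕ) (D : Diagram n) (c : Fin n → Way) (x : Fin n),
      (-2 : ℤ) ^ kc D (Function.update c x .keep) u +
        (-2 : ℤ) ^ kc D (Function.update c x .along) u +
        (-2 : ℤ) ^ kc D (Function.update c x .turn) u = 0 := by
  induction u using List.reverseRecOn with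
  | nil =>
    intro n D c x
    rw [hK.2.2.1, hK.2.2.1, hK.2.2.1]
    exact hT n D c x
  | append_singleton u a ih =>
    intro n D c x
    have h := ih (n + 1) (D.push a 1) (Fin.cons .turn c : Fin (n + 1) → Way) x.succ
    have e : ∀ v : Way, kc (D.push a 1)
        (Function.update (Fin.cons .turn c : Fin (n + 1) → Way) x.succ v) u =
        kc D (Function.update c x v) (u ++ [a]) := by
      intro v
      rw [← Fin.cons_update, hK.2.2.2.2]
    rw [e, e, e] at h
    exact h

private theorem States_sum : ∀ (n : ℕ) (g : (Fin n → Way) → ℤ),
    (∀ c x, g (Function.update c x .keep) + g (Function.update c x .along) +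
      g (Function.update c x .turn) = 0) →
    ∑ s : Fin n → Bool, g (ways s) = (-1) ^ n * g (fun _ => .keep) := by
  intro n
  induction n with
  | zero =>
    intro g _
    have e : ∀ c : Fin 0 → Way, g c = g (fun _ => .keep) := fun c => by
      rw [Subsingleton.elim c (fun _ => .keep)]
    simp [e (ways _)]
  | succ n ih =>
    intro g hg
    rw [← (Fin.consEquiv (fun _ : Fin (n + 1) => Bool)).sum_comp]
    rw [Fintype.sum_prod_type, Fintype.sum_bool, ← Finset.sum_add_distrib]
    have e : ∀ (b : Bool) (s : Fin n → Bool),
        g (ways (Fin.consEquiv (fun _ : Fin (n + 1) => Bool) (b, s))) =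
          g (Fin.cons (if b then .along else .turn) (ways s) : Fin (n + 1) → Way) := by
      intro b s
      refine congrArg g ?_
      funext i
      refine Fin.cases ?_ (fun j => ?_) i
      · rfl
      · rfl
    have h1 : ∀ s : Fin n → Bool,
        g (ways (Fin.consEquiv (fun _ : Fin (n + 1) => Bool) (true, s))) +
          g (ways (Fin.consEquiv (fun _ : Fin (n + 1) => Bool) (false, s))) =
          -g (Fin.cons .keep (ways s) : Fin (n + 1) → Way) := by
      intro s
      rw [e, e]
      have h := hg (Fin.cons .keep (ways s) : Fin (n + 1) → Way) 0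
      rw [Fin.update_cons_zero, Fin.update_cons_zero, Fin.update_cons_zero] at h
      simp only [if_true, Bool.false_eq_true, if_false]
      linarith
    rw [Finset.sum_congr rfl fun s _ => h1 s, Finset.sum_neg_distrib]
    have h2 := ih (fun c => g (Fin.cons .keep c : Fin (n + 1) → Way)) (fun c x => by
      have h := hg (Fin.cons .keep c : Fin (n + 1) → Way) x.succ
      rw [← Fin.cons_update, ← Fin.cons_update, ← Fin.cons_update] at h
      exact h)
    rw [h2]
    have h3 : (Fin.cons .keep (fun _ => .keep) : Fin (n + 1) → Way) = fun _ => .keep := by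
      funext i
      refine Fin.cases ?_ (fun j => ?_) i
      · rfl
      · rfl
    rw [h3, pow_succ]
    ring

theorem thm_States (hK : St_Kc) (hT : St_Three) : St_States := by
  intro n D u
  exact States_sum n (fun c => (-2 : ℤ) ^ kc D c u) (fun c x => States_three hK hT u n D c x)

end Pool.Agent.Ins
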