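import Pool.Agent.Ins.Stmts

/-!
# The number of curves satisfies the Temperley-Lieb relations
-/

namespace Pool.Agent.Ins

open Matrix

private theorem TLF_sq : ∀ a : Fin 3, W a .turn * W a .turn = 2 • W a .turn := by
  decide +kernel

private theorem TLF_braid : ∀ a b : Fin 3, a.val + 1 = b.val ∨ b.val + 1 = a.val →
    W a .turn * (W b .turn * W a .turn) = W a .turn := by
  decide +kernel

private theorem TLF_comm : W 2 .turn * W 0 .turn = W 0 .turn * W 2 .turn := by
  decide +kernel

private theorem TLF_append (u v : List (Fin 3)) : mat (u ++ v) = mat u * mat v := by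
  simp [mat]

private theorem TLF_cons (a : Fin 3) (v : List (Fin 3)) : mat (a :: v) = W a .turn * mat v := by
  simp [mat]

theorem thm_TLF (hK : St_Kc) : St_TLF := by
  intro n D c d
  have h := hK.1 n D c
  have inj : ∀ a b : ℕ, 2 ^ a = 2 ^ b → a = b := fun a b hab =>
    Nat.pow_right_injective le_rfl hab
  refine ⟨?_, ?_, ?_⟩
  · intro u v a
    have e : kc D c (u ++ a :: a :: v) = kc D c (u ++ a :: v) + 1 := by
      apply inj
      rw [pow_succ, h, h, TLF_append, TLF_append, TLF_cons, TLF_cons, ← Matrix.mul_assoc (W a .turn),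
        TLF_sq]
      simp only [Matrix.smul_mul, Matrix.mul_smul, Matrix.trace_smul, smul_eq_mul]
      ring
    show d ^ kc D c (u ++ a :: a :: v) = d * d ^ kc D c (u ++ a :: v)
    rw [e, pow_succ]
    ring
  · intro u v a b hab
    have e : kc D c (u ++ a :: b :: a :: v) = kc D c (u ++ a :: v) := by
      apply inj
      rw [h, h, TLF_append, TLF_append, TLF_cons, TLF_cons, TLF_cons,
        ← Matrix.mul_assoc (W b .turn), ← Matrix.mul_assoc (W a .turn), TLF_braid a b hab]
    show d ^ kc D c (u ++ a :: b :: a :: v) = d ^ kc D c (u ++ a :: v)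
    rw [e]
  · intro u v
    have e : kc D c (u ++ 2 :: 0 :: v) = kc D c (u ++ 0 :: 2 :: v) := by
      apply inj
      rw [h, h, TLF_append, TLF_append, TLF_cons, TLF_cons, TLF_cons, TLF_cons,
        ← Matrix.mul_assoc (W 2 .turn), ← Matrix.mul_assoc (W 0 .turn), TLF_comm]
    show d ^ kc D c (u ++ 2 :: 0 :: v) = d ^ kc D c (u ++ 0 :: 2 :: v)
    rw [e]

end Pool.Agent.Ins
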