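import Pool.Agent.Ins.Stmts

set_option autoImplicit false

/-!
# Trace identity for the permutations of four strands
-/

namespace Pool.Agent.Ins

open Matrix Pool.Agent.B4

/-- Change the colours at the places `a`, `a + 1`. -/
def traceUpd (x : Col) (a : Fin 3) (b : Bool) : Col :=
  fun c => if c = a.castSucc ∨ c = a.succ then b else x c

theorem trace_W (a : Fin 3) (x z : Col) : W a .turn x z =
    if x a.castSucc = x a.succ ∧ (z = traceUpd x a false ∨ z = traceUpd x a true)
      then 1 else 0 := by
  unfold W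
  apply if_congr _ rfl rfl
  constructor
  · rintro ⟨h1, h2, h3⟩
    refine ⟨h1, ?_⟩
    have hz : z = traceUpd x a (z a.castSucc) := by
      funext c
      unfold traceUpd
      by_cases h : c = a.castSucc ∨ c = a.succ
      · rw [if_pos h]
        rcases h with h | h
        · rw [h]
        · rw [h]
          exact h2.symm
      · rw [if_neg h]
        exact (h3 c (fun h4 => h (Or.inl h4)) (fun h4 => h (Or.inr h4))).symm
    cases hb : z a.castSucc
    · rw [hb] at hz
      exact Or.inl hz
    · rw [hb] at hz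
      exact Or.inr hz
  · rintro ⟨h1, h2⟩
    have key : ∀ b : Bool, z = traceUpd x a b → z a.castSucc = z a.succ ∧
        ∀ c, c ≠ a.castSucc → c ≠ a.succ → x c = z c := by
      intro b hz
      subst hz
      refine ⟨?_, fun c hc1 hc2 => ?_⟩
      · unfold traceUpd
        rw [if_pos (Or.inl rfl), if_pos (Or.inr rfl)]
      · unfold traceUpd
        rw [if_neg (fun h => h.elim hc1 hc2)]
    rcases h2 with h2 | h2
    · exact ⟨h1, key _ h2⟩
    · exact ⟨h1, key _ h2⟩

theorem trace_mul (a : Fin 3) (M : Matrix Col Col ℕ) (x y : Col) :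
    (W a .turn * M) x y = if x a.castSucc = x a.succ then
      M (traceUpd x a false) y + M (traceUpd x a true) y else 0 := by
  rw [Matrix.mul_apply]
  simp only [trace_W]
  by_cases h : x a.castSucc = x a.succ
  · rw [if_pos h]
    have hne : traceUpd x a false ≠ traceUpd x a true := by
      intro he
      have h1 := congrFun he a.castSucc
      simp [traceUpd] at h1
    have key : ∀ z : Col, (if x a.castSucc = x a.succ ∧
        (z = traceUpd x a false ∨ z = traceUpd x a true) then 1 else 0) * M z y =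
        (if z = traceUpd x a false then M z y else 0) +
          (if z = traceUpd x a true then M z y else 0) := by
      intro z
      by_cases h1 : z = traceUpd x a false
      · rw [if_pos ⟨h, Or.inl h1⟩, if_pos h1, if_neg (fun h2 => hne (h1.symm.trans h2)),
          one_mul, add_zero]
      · by_cases h2 : z = traceUpd x a true
        · rw [if_pos ⟨h, Or.inr h2⟩, if_neg h1, if_pos h2, one_mul, zero_add]
        · rw [if_neg (fun h3 => h3.2.elim h1 h2), if_neg h1, if_neg h2, zero_mul, add_zero]
    rw [Finset.sum_congr rfl fun z _ => key z, Finset.sum_add_distrib, Finset.sum_ite_eq',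
      Finset.sum_ite_eq', if_pos (Finset.mem_univ _), if_pos (Finset.mem_univ _)]
  · rw [if_neg h]
    apply Finset.sum_eq_zero
    intro z _
    rw [if_neg (fun h3 => h h3.1), zero_mul]

/-- The entries of `mat u`. -/
def traceEnt : List (Fin 3) → Col → Col → ℕ
  | [], x, y => if x = y then 1 else 0
  | a :: u, x, y => if x a.castSucc = x a.succ then
      traceEnt u (traceUpd x a false) y + traceEnt u (traceUpd x a true) y else 0

theorem trace_mat (u : List (Fin 3)) (x y : Col) : mat u x y = traceEnt u x y := by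
  induction u generalizing x with
  | nil =>
    simp [mat, traceEnt, Matrix.one_apply]
  | cons a u ih =>
    have h : mat (a :: u) = W a .turn * mat u := by simp [mat]
    rw [h, trace_mul, ih, ih]
    rfl

/-- The trace of `mat u * permM τ`. -/
def traceN (f : Fin 4 → Fin 4) (u : List (Fin 3)) : ℕ :=
  ∑ z : Col, traceEnt u (fun a => z (f a)) z

theorem trace_N (τ : Equiv.Perm (Fin 4)) (u : List (Fin 3)) :
    Matrix.trace (mat u * permM τ) = traceN τ u := by
  unfold Matrix.trace traceN
  simp only [Matrix.diag_apply, Matrix.mul_apply]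
  rw [Finset.sum_comm]
  apply Finset.sum_congr rfl
  intro z _
  have key : ∀ x : Col, mat u x z * permM τ z x =
      if x = (fun a => z (τ a)) then mat u x z else 0 := by
    intro x
    unfold permM
    by_cases h : ∀ a, x a = z (τ a)
    · rw [if_pos h, if_pos (funext h), mul_one]
    · rw [if_neg h, if_neg (fun h1 => h (fun a => congrFun h1 a)), mul_zero]
  rw [Finset.sum_congr rfl fun x _ => key x, Finset.sum_ite_eq', if_pos (Finset.mem_univ _),
    trace_mat]

/-- The permutation of a word. -/
def traceP (t : List (Fin 3)) : Equiv.Perm (Fin 4) :=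
  (t.map fun a => Equiv.swap a.castSucc a.succ).prod

theorem trace_sign (t : List (Fin 3)) :
    ((Equiv.Perm.sign (traceP t) : ℤˣ) : ℤ) = (-1) ^ t.length := by
  induction t with
  | nil => simp [traceP]
  | cons a t ih =>
    have h : traceP (a :: t) = Equiv.swap a.castSucc a.succ * traceP t := by simp [traceP]
    have hne : a.castSucc ≠ a.succ := (Fin.castSucc_lt_succ (i := a)).ne
    rw [h, Equiv.Perm.sign_mul, Equiv.Perm.sign_swap hne, Units.val_mul, ih, List.length_cons,
      pow_succ]
    simp

/-- The reduced words of the twenty-four permutations. -/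
def traceL : List (List (Fin 3)) :=
  [[], [0], [1], [2], [0, 1], [0, 2], [1, 0], [1, 2], [2, 1], [0, 1, 0], [0, 1, 2], [0, 2, 1],
    [1, 0, 2], [1, 2, 1], [2, 1, 0], [0, 1, 0, 2], [0, 1, 2, 1], [0, 2, 1, 0], [1, 0, 2, 1],
    [1, 2, 1, 0], [0, 1, 0, 2, 1], [0, 1, 2, 1, 0], [1, 0, 2, 1, 0], [0, 1, 0, 2, 1, 0]]

theorem trace_all : ∀ τ : Equiv.Perm (Fin 4), ∃ t ∈ traceL, τ = traceP t := by
  decide +kernel

/-- The exponent. -/
def traceLog (x : ℕ) : ℕ := if x = 2 then 1 else if x = 4 then 2 else if x = 8 then 3 else 4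

/-- `EE (-2)` with integer entries. -/
def traceE : Fin 3 → Matrix (Fin 3) (Fin 3) ℤ :=
  ![!![-2, 1, 0; 0, 0, 0; 0, 0, 0], !![0, 0, 0; 1, -2, 1; 0, 0, 0],
    !![0, 0, 0; 0, 0, 0; 0, 1, -2]]

/-- `FF (-2)` with integer entries. -/
def traceF : Fin 3 → Matrix (Fin 2) (Fin 2) ℤ :=
  ![!![-2, 1; 0, 0], !![0, 0; 1, -2], !![-2, 1; 0, 0]]

/-- The product of `1 + E a`. -/
def traceR {m : ℕ} (E : Fin 3 → Matrix (Fin m) (Fin m) ℤ) (t : List (Fin 3)) :
    Matrix (Fin m) (Fin m) ℤ := (t.map fun a => 1 + E a).prod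

theorem trace_fin : ∀ t ∈ traceL, ∀ i : Fin 14,
    traceN (traceP t) (wl i) = 2 ^ traceLog (traceN (traceP t) (wl i)) ∧
    (-1 : ℤ) ^ t.length * (-2) ^ traceLog (traceN (traceP t) (wl i)) =
      5 * (if i = 0 then 1 else 0) +
      3 * Matrix.trace (wd (traceE 0) (traceE 1) (traceE 2) i * traceR traceE t) +
      Matrix.trace (wd (traceF 0) (traceF 1) (traceF 2) i * traceR traceF t) := by
  decide +kernel

/-- Integer matrices as complex matrices. -/
noncomputable def traceC (m : ℕ) : Matrix (Fin m) (Fin m) ℤ →+* Matrix (Fin m) (Fin m) ℂ :=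
  (Int.castRingHom ℂ).mapMatrix

theorem trace_C {m : ℕ} (M : Matrix (Fin m) (Fin m) ℤ) :
    Matrix.trace (traceC m M) = ((Matrix.trace M : ℤ) : ℂ) := by
  simp [traceC, Matrix.trace]

theorem trace_E (a : Fin 3) : EE (-2) a = traceC 3 (traceE a) := by
  fin_cases a <;> ext i j <;> fin_cases i <;> fin_cases j <;> simp [EE, traceE, traceC]

theorem trace_F (a : Fin 3) : FF (-2) a = traceC 2 (traceF a) := by
  fin_cases a <;> ext i j <;> fin_cases i <;> fin_cases j <;> simp [FF, traceF, traceC]

theorem trace_wd {m : ℕ} (x y z : Matrix (Fin m) (Fin m) ℤ) (i : Fin 14) :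
    wd (traceC m x) (traceC m y) (traceC m z) i = traceC m (wd x y z i) := by
  fin_cases i <;> simp [wd]

theorem trace_rep {m : ℕ} (E : Fin 3 → Matrix (Fin m) (Fin m) ℂ)
    (E' : Fin 3 → Matrix (Fin m) (Fin m) ℤ) (h : ∀ a, E a = traceC m (E' a)) (t : List (Fin 3)) :
    rep 1 E (t.map fun a => (a, (1 : ℤˣ))) = traceC m (traceR E' t) := by
  induction t with
  | nil => simp [rep, traceR]
  | cons a t ih =>
    have h1 : rep 1 E ((a :: t).map fun a => (a, (1 : ℤˣ))) =
        (1 + E a) * rep 1 E (t.map fun a => (a, (1 : ℤˣ))) := by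
      simp [rep]
    have h2 : traceR E' (a :: t) = (1 + E' a) * traceR E' t := by simp [traceR]
    rw [h1, h2, ih, map_mul, map_add, map_one, h]

theorem thm_Trace : St_Trace := by
  intro τ
  obtain ⟨t, ht, rfl⟩ := trace_all τ
  refine ⟨t, trace_sign t, fun i => ?_⟩
  obtain ⟨h1, h2⟩ := trace_fin t ht i
  rw [trace_N, h1, Nat.log_pow (by norm_num), trace_rep (EE (-2)) traceE trace_E t,
    trace_rep (FF (-2)) traceF trace_F t, trace_E 0, trace_E 1, trace_E 2, trace_F 0, trace_F 1,
    trace_F 2, trace_wd, trace_wd, ← map_mul, ← map_mul, trace_C, trace_C]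
  have h3 := congrArg (fun x : ℤ => (x : ℂ)) h2
  push_cast at h3
  by_cases hi : i = 0
  · rw [if_pos hi] at h3 ⊢
    exact h3
  · rw [if_neg hi] at h3 ⊢
    exact h3

end Pool.Agent.Ins
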