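import Pool.Agent.Ins.Main
import Pool.Agent.Ins.Close
import Pool.Agent.Ins.Push
import Pool.Agent.Ins.Kc
import Pool.Agent.Ins.Pair
import Pool.Agent.Ins.Three
import Pool.Agent.Ins.States
import Pool.Agent.Ins.TLF
import Pool.Agent.Ins.Expand
import Pool.Agent.Ins.Coord
import Pool.Agent.Ins.Iso
import Pool.Agent.Ins.Return
import Pool.Agent.Ins.Trace
import Pool.Agent.Ins.Knot
import Pool.Agent.Ins.Compact
import Pool.Agent.Ins.Contra
import Pool.Agent.Ins.Open

/-!
# The insertion theorem: assembly of the modules
-/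

namespace Pool.Agent.Ins

open LaurentPolynomial

theorem Final_main : St_Main := by
  have hClose := thm_Close
  have hPush := thm_Push
  have hKc : St_Kc := thm_Kc hClose hPush
  have hPair := thm_Pair
  have hThree : St_Three := thm_Three hPair
  have hStates : St_States := thm_States hKc hThree
  have hTLF : St_TLF := thm_TLF hKc
  have hExpand : St_Expand := thm_Expand hKc
  have hKnot : St_Knot := thm_Knot hClose hPush hKc hStates
  exact thm_Main hExpand hTLF thm_Coord thm_Iso hKnot thm_Return thm_Trace hStates thm_Compact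
    thm_Contra

theorem Final_open : St_MainOpen := thm_MainOpen Final_main (thm_Open thm_Pair)

/-- A finite set of integers is bounded. -/
theorem Final_bound {S : Set ℤ} (h : S.Finite) : ∃ C : ℕ, ∀ e ∈ S, |e| < C := by
  obtain ⟨B, hB⟩ := (h.image fun e : ℤ => |e|).bddAbove
  refine ⟨(B + 1).toNat, fun e he => ?_⟩
  have h1 : |e| ≤ B := hB ⟨e, he, rfl⟩
  have h2 : 0 ≤ |e| := abs_nonneg e
  omega

end Pool.Agent.Ins
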