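import Pool.Agent.Ins.Stmts

/-!
# The insertion theorem, from the modules
-/

namespace Pool.Agent.Ins

open Matrix LaurentPolynomial Filter Topology Pool.Agent.B4

variable {n : ℕ}

theorem Main_writhe (D : Diagram n) (w : List (Fin 3 × ℤˣ)) :
    (D.insert w).writhe = D.writhe + expSum w := by
  induction w with
  | nil => simp [Diagram.insert, expSum]
  | cons l w ih =>
    have h1 : (D.insert (l :: w)).writhe = (l.2 : ℤ) + (D.insert w).writhe := by
      show ∑ x : Fin (n + w.length + 1), (((Fin.cons l.2 (D.insert w).sign :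
        Fin (n + w.length + 1) → ℤˣ) x : ℤˣ) : ℤ) = _
      rw [Fin.sum_univ_succ]
      simp only [Fin.cons_zero, Fin.cons_succ]
      rfl
    rw [h1, ih]
    simp only [expSum, List.map_cons, List.sum_cons]
    ring

theorem Main_unit_parity (ε : ℤˣ) : ∃ k : ℤ, (ε : ℤ) = 1 + 2 * k := by
  rcases Int.units_eq_one_or ε with rfl | rfl
  · exact ⟨0, by simp⟩
  · exact ⟨-1, by simp⟩

theorem Main_writhe_parity (D : Diagram n) : ∃ k : ℤ, D.writhe = n + 2 * k := by
  choose f hf using fun x => Main_unit_parity (D.sign x)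
  refine ⟨∑ x, f x, ?_⟩
  unfold Diagram.writhe
  rw [Finset.sum_congr rfl fun x _ => hf x, Finset.sum_add_distrib, Finset.mul_sum]
  simp

theorem Main_sign (D : Diagram n) (w : List (Fin 3 × ℤˣ)) :
    ((((-1 : ℤˣ) ^ (D.insert w).writhe : ℤˣ) : ℤ) : ℂ) = (-1) ^ (n + w.length) := by
  obtain ⟨k, hk⟩ := Main_writhe_parity (D.insert w)
  rw [hk, _root_.zpow_add, _root_.zpow_mul]
  have h1 : ((-1 : ℤˣ) ^ (2 : ℤ)) = 1 := by decide
  rw [h1, _root_.one_zpow, mul_one, zpow_natCast]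
  push_cast
  rfl

theorem Main_ev_C (A : ℂˣ) (k : ℤ) : ev A (C k) = (k : ℂ) := by
  unfold ev
  rw [LaurentPolynomial.eval₂_C]
  rfl

theorem Main_ev_T (A : ℂˣ) (k : ℤ) : ev A (T k) = ((A ^ k : ℂˣ) : ℂ) := by
  unfold ev
  rw [LaurentPolynomial.eval₂_T]

theorem Main_ev_normalized (A : ℂˣ) (D : Diagram n) (w : List (Fin 3 × ℤˣ)) :
    ev A (D.insert w).normalized = (-1) ^ (n + w.length) *
      ((A ^ (-3 * (D.writhe + expSum w)) : ℂˣ) : ℂ) * ev A (D.insert w).bracket := by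
  unfold Diagram.normalized
  rw [map_mul, map_mul, Main_ev_C, Main_ev_T, Main_sign, Main_writhe]

/-- The values of the outer diagram on the fourteen words. -/
noncomputable def Main_m (A : ℂˣ) (D : Diagram n) (i : Fin 14) : ℂ :=
  ∑ s : Fin n → Bool, wt A D s * lv A ^ kc D (ways s) (wl i)

theorem Main_bracket (hE : St_Expand) (hT : St_TLF) (A : ℂˣ) (D : Diagram n)
    (w : List (Fin 3 × ℤˣ)) (z : Fin 14 → ℂ)
    (hz : ∀ F, TLFun (lv A) F → wordSum A F w = ∑ i, z i * F (wl i)) :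
    lv A * ev A (D.insert w).bracket = ∑ i, z i * Main_m A D i := by
  rw [hE n D w A]
  unfold Main_m
  have h1 : ∀ s : Fin n → Bool, wt A D s * wordSum A (fun u => lv A ^ kc D (ways s) u) w =
      ∑ i, z i * (wt A D s * lv A ^ kc D (ways s) (wl i)) := by
    intro s
    rw [hz _ (hT n D (ways s) (lv A)), Finset.mul_sum]
    exact Finset.sum_congr rfl fun i _ => by ring
  rw [Finset.sum_congr rfl fun s _ => h1 s, Finset.sum_comm]
  exact Finset.sum_congr rfl fun i _ => by rw [Finset.mul_sum]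

theorem Main_lv_one : lv 1 = -2 := by
  unfold lv
  simp
  norm_num

theorem Main_kappa_cube {κ : ℂ} (hκ : κ = ⟨1 / 2, -(√3 / 2)⟩) : κ ^ 3 = -1 := by
  have hr : (√3 : ℝ) ^ 2 = 3 := Real.sq_sqrt (by norm_num)
  rw [hκ]
  apply Complex.ext
  · simp only [pow_succ, pow_zero, one_mul, Complex.mul_re, Complex.mul_im, Complex.neg_re,
      Complex.one_re]
    linear_combination (-(3 / 8)) * hr
  · simp only [pow_succ, pow_zero, one_mul, Complex.mul_re, Complex.mul_im, Complex.neg_im,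
      Complex.one_im]
    linear_combination (√3 / 8) * hr

theorem Main_kappa_norm : ‖(⟨1 / 2, -(√3 / 2)⟩ : ℂ)‖ = 1 := by
  have hr : (√3 : ℝ) ^ 2 = 3 := Real.sq_sqrt (by norm_num)
  have h1 : Complex.normSq (⟨1 / 2, -(√3 / 2)⟩ : ℂ) = 1 := by
    rw [Complex.normSq_apply]
    simp only
    linear_combination (1 / 4) * hr
  rw [Complex.normSq_eq_norm_sq] at h1
  nlinarith [norm_nonneg (⟨1 / 2, -(√3 / 2)⟩ : ℂ)]

/-- The identity at the point `pt e` before the limit. -/
theorem Main_identity (hE : St_Expand) (hT : St_TLF) (D : Diagram n) (w : List (Fin 3 × ℤˣ))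
    (z : Fin 14 → ℂ) (P : ℤ[T;T⁻¹]) (he : expSum w ≠ 0) {t : ℕ}
    (ht : ((-1 : ℤ)) ^ t * (-1) ^ w.length = -1)
    (hz : ∀ F, TLFun (lv (pt (expSum w))) F →
      wordSum (pt (expSum w)) F w = ∑ i, z i * F (wl i))
    (hP : (D.insert w).normalized = P) :
    ∑ i, z i * Main_m (pt (expSum w)) D i = (-1) ^ n * (-1) ^ t *
      ((((pt (expSum w)) ^ (3 * D.writhe) : ℂˣ) : ℂ) * (lv (pt (expSum w)) *
        ev (pt (expSum w)) P)) := by
  set A := pt (expSum w) with hA
  rw [← Main_bracket hE hT A D w z hz, ← hP, Main_ev_normalized]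
  have hκ : (((A ^ expSum w : ℂˣ)) : ℂ) ^ 3 = -1 := Main_kappa_cube (pt_pow he)
  have hκ' : (((A ^ (-3 * expSum w) : ℂˣ)) : ℂ) = -1 := by
    have h1 : A ^ (-3 * expSum w) = ((A ^ expSum w) ^ 3)⁻¹ := by
      rw [← zpow_natCast, ← _root_.zpow_mul, ← _root_.zpow_neg]
      congr 1
      push_cast
      ring
    rw [h1, Units.val_inv_eq_inv_val, Units.val_pow_eq_pow_val, hκ]
    norm_num
  have h2 : A ^ (-3 * (D.writhe + expSum w)) = (A ^ (3 * D.writhe))⁻¹ * A ^ (-3 * expSum w) := by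
    rw [← _root_.zpow_neg, ← _root_.zpow_add]
    congr 1
    ring
  have h3 : (((A ^ (3 * D.writhe) : ℂˣ)) : ℂ) * (((A ^ (3 * D.writhe))⁻¹ : ℂˣ) : ℂ) = 1 := by
    rw [← Units.val_mul, mul_inv_cancel, Units.val_one]
  have ht' : ((-1 : ℂ)) ^ t * (-1) ^ w.length = -1 := by exact_mod_cast congrArg (Int.cast : ℤ → ℂ) ht
  have h4 : ((-1 : ℂ)) ^ n * (-1) ^ n = 1 := by
    rw [← mul_pow]
    norm_num
  rw [h2, Units.val_mul, hκ', pow_add]
  have h5 : (-1 : ℂ) ^ n * (-1) ^ t * ((((A ^ (3 * D.writhe) : ℂˣ)) : ℂ) * (lv A *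
      ((-1) ^ n * (-1) ^ w.length * ((((A ^ (3 * D.writhe))⁻¹ : ℂˣ) : ℂ) * (-1)) *
        ev A (D.insert w).bracket))) =
      (((-1 : ℂ) ^ n * (-1) ^ n) * ((-1) ^ t * (-1) ^ w.length) *
        ((((A ^ (3 * D.writhe) : ℂˣ)) : ℂ) * (((A ^ (3 * D.writhe))⁻¹ : ℂˣ) : ℂ)) * (-1)) *
        (lv A * ev A (D.insert w).bracket) := by ring
  rw [h5, h4, ht', h3]
  ring

/-! ### Continuity -/

theorem Main_cont_wd {m : ℕ} {x y z : ℂ → Matrix (Fin m) (Fin m) ℂ} (hx : Continuous x)
    (hy : Continuous y) (hz : Continuous z) (i : Fin 14) :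
    Continuous fun d => wd (x d) (y d) (z d) i := by
  match i with
  | 0 => exact continuous_const
  | 1 => exact hx
  | 2 => exact hy
  | 3 => exact hz
  | 4 => exact hx.matrix_mul hy
  | 5 => exact hy.matrix_mul hx
  | 6 => exact hy.matrix_mul hz
  | 7 => exact hz.matrix_mul hy
  | 8 => exact hx.matrix_mul hz
  | 9 => exact hx.matrix_mul (hy.matrix_mul hz)
  | 10 => exact hz.matrix_mul (hy.matrix_mul hx)
  | 11 => exact hx.matrix_mul (hz.matrix_mul hy)
  | 12 => exact hy.matrix_mul (hx.matrix_mul hz)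
  | 13 => exact hy.matrix_mul (hx.matrix_mul (hz.matrix_mul hy))

theorem Main_cont_EE (a : Fin 3) : Continuous fun d : ℂ => EE d a := by
  apply continuous_matrix
  intro i j
  fin_cases a <;> fin_cases i <;> fin_cases j <;> simp [EE] <;>
    first | exact continuous_const | exact continuous_id

theorem Main_cont_FF (a : Fin 3) : Continuous fun d : ℂ => FF d a := by
  apply continuous_matrix
  intro i j
  fin_cases a <;> fin_cases i <;> fin_cases j <;> simp [FF] <;>
    first | exact continuous_const | exact continuous_id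

theorem Main_cont_G3 : Continuous fun d : ℂ => G3 d := by
  apply continuous_matrix
  intro i j
  fin_cases i <;> fin_cases j <;> simp [G3] <;>
    first | exact continuous_const | exact continuous_neg

theorem Main_cont_G2 : Continuous fun d : ℂ => G2 d := by
  apply continuous_matrix
  intro i j
  fin_cases i <;> fin_cases j <;> simp [G2] <;>
    first | exact continuous_const | exact continuous_neg

theorem Main_cont_comb3 : Continuous fun p : ℂ × (Fin 14 → ℂ) => comb3 p.1 p.2 := by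
  unfold comb3
  apply continuous_finsetSum
  intro i _
  have h1 : Continuous fun p : ℂ × (Fin 14 → ℂ) => p.2 i :=
    (continuous_apply i).comp continuous_snd
  have h2 : Continuous fun p : ℂ × (Fin 14 → ℂ) => wd (EE p.1 0) (EE p.1 1) (EE p.1 2) i :=
    (Main_cont_wd (Main_cont_EE 0) (Main_cont_EE 1) (Main_cont_EE 2) i).comp continuous_fst
  exact h1.smul h2

theorem Main_cont_comb2 : Continuous fun p : ℂ × (Fin 14 → ℂ) => comb2 p.1 p.2 := by
  unfold comb2
  apply continuous_finsetSum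
  intro i _
  have h1 : Continuous fun p : ℂ × (Fin 14 → ℂ) => p.2 i :=
    (continuous_apply i).comp continuous_snd
  have h2 : Continuous fun p : ℂ × (Fin 14 → ℂ) => wd (FF p.1 0) (FF p.1 1) (FF p.1 2) i :=
    (Main_cont_wd (Main_cont_FF 0) (Main_cont_FF 1) (Main_cont_FF 2) i).comp continuous_fst
  exact h1.smul h2

theorem Main_lv_tendsto : Tendsto (fun e : ℤ => lv (pt e)) cofinite (𝓝 (-2)) := by
  have h1 : ContinuousAt (fun x : ℂ => -x ^ 2 - (x⁻¹) ^ 2) 1 := by
    apply ContinuousAt.sub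
    · fun_prop
    · exact (continuousAt_inv₀ one_ne_zero).pow 2
  have h2 := h1.tendsto.comp pt_tendsto
  have h3 : (-(1 : ℂ) ^ 2 - ((1 : ℂ)⁻¹) ^ 2) = -2 := by norm_num
  rw [h3] at h2
  exact h2

theorem Main_zpow_tendsto (k : ℤ) :
    Tendsto (fun e : ℤ => (((pt e) ^ k : ℂˣ) : ℂ)) cofinite (𝓝 1) := by
  have h1 := (continuousAt_zpow₀ (1 : ℂ) k (Or.inl one_ne_zero)).tendsto.comp pt_tendsto
  rw [_root_.one_zpow] at h1
  refine h1.congr fun e => ?_
  simp only [Function.comp_apply, Units.val_zpow_eq_zpow_val]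

theorem Main_m_tendsto (D : Diagram n) (i : Fin 14) :
    Tendsto (fun e : ℤ => Main_m (pt e) D i) cofinite
      (𝓝 (∑ s : Fin n → Bool, (-2 : ℂ) ^ kc D (ways s) (wl i))) := by
  unfold Main_m
  apply tendsto_finsetSum
  intro s _
  have h1 : Tendsto (fun e : ℤ => wt (pt e) D s) cofinite (𝓝 1) := by
    unfold wt
    have h2 : (1 : ℂ) = ∏ x : Fin n, (1 : ℂ) := by simp
    rw [h2]
    apply tendsto_finsetProd
    intro x _
    exact Main_zpow_tendsto _
  have h3 := h1.mul (Main_lv_tendsto.pow (kc D (ways s) (wl i)))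
  rw [one_mul] at h3
  exact h3

theorem Main_ev_tendsto (P : ℤ[T;T⁻¹]) :
    Tendsto (fun e : ℤ => ev (pt e) P) cofinite (𝓝 (ev 1 P)) := eval_tendsto P

theorem Main_fst {α β : Type*} {a : α} {b : β} {c : α × β} (h : (a, b) = c) : a = c.1 := by
  rw [← h]

theorem Main_lim {U : Filter ℤ} [U.NeBot] (hU : U ≤ cofinite) {X : Type*} [TopologicalSpace X]
    [T2Space X] {f : ℂ × (Fin 14 → ℂ) → X} (hf : Continuous f) {z : ℤ → Fin 14 → ℂ}
    {z' : Fin 14 → ℂ} (hz : Tendsto z U (𝓝 z')) {c : X}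
    (hc : ∀ᶠ e in U, f (lv (pt e), z e) = c) : f (-2, z') = c := by
  have h1 : Tendsto (fun e => (lv (pt e), z e)) U (𝓝 ((-2 : ℂ), z')) :=
    (Main_lv_tendsto.mono_left hU).prodMk_nhds hz
  have h2 := (hf.tendsto ((-2 : ℂ), z')).comp h1
  exact tendsto_nhds_unique (h2.congr' hc) tendsto_const_nhds

/-- The trace form of the limit. -/
theorem Main_trace {τ : Equiv.Perm (Fin 4)} {t : List (Fin 3)} (z : Fin 14 → ℂ)
    (ht : ∀ i : Fin 14, (-1 : ℂ) ^ t.length *
      (-2) ^ Nat.log 2 (Matrix.trace (mat (wl i) * permM τ)) =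
      5 * (if i = 0 then 1 else 0) +
      3 * Matrix.trace (wd (EE (-2) 0) (EE (-2) 1) (EE (-2) 2) i *
        rep 1 (EE (-2)) (t.map fun a => (a, 1))) +
      Matrix.trace (wd (FF (-2) 0) (FF (-2) 1) (FF (-2) 2) i *
        rep 1 (FF (-2)) (t.map fun a => (a, 1)))) :
    ∑ i, z i * ((-1 : ℂ) ^ t.length *
      (-2) ^ Nat.log 2 (Matrix.trace (mat (wl i) * permM τ))) =
      5 * z 0 + 3 * Matrix.trace (comb3 (-2) z * rep 1 (EE (-2)) (t.map fun a => (a, 1))) +
        Matrix.trace (comb2 (-2) z * rep 1 (FF (-2)) (t.map fun a => (a, 1))) := by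
  simp only [ht, comb3, comb2, Matrix.sum_mul, Matrix.trace_sum, Matrix.smul_mul,
    Matrix.trace_smul, smul_eq_mul, Finset.mul_sum, mul_add, Finset.sum_add_distrib]
  congr 1
  congr 1
  · rw [Finset.sum_eq_single (0 : Fin 14)]
    · simp
      ring
    · intro i _ hi
      simp [hi]
    · simp
  · exact Finset.sum_congr rfl fun i _ => by ring

/-- The insertion theorem for one outer diagram. -/
theorem Main_fixed (hE : St_Expand) (hT : St_TLF) (hC : St_Coord) (hI : St_Iso) (hK : St_Knot)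
    (hR : St_Return) (hTr : St_Trace) (hS : St_States) (hCo : St_Compact) (hCon : St_Contra)
    (D : Diagram n) (P : ℤ[T;T⁻¹]) :
    {e : ℤ | ∃ w : List (Fin 3 × ℤˣ), (D.insert w).IsKnot ∧ (D.insert w).normalized = P ∧
      expSum w = e}.Finite := by
  by_contra hinf
  set I : Set ℤ := {e : ℤ | ∃ w : List (Fin 3 × ℤˣ), (D.insert w).IsKnot ∧
    (D.insert w).normalized = P ∧ expSum w = e} with hIdef
  have hinf' : I.Infinite := hinf
  have h1 : ∀ e : ℤ, ∃ w : List (Fin 3 × ℤˣ), e ∈ I → ((D.insert w).IsKnot ∧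
      (D.insert w).normalized = P ∧ expSum w = e) := by
    intro e
    by_cases he : e ∈ I
    · obtain ⟨w, hw⟩ := he
      exact ⟨w, fun _ => hw⟩
    · exact ⟨[], fun h => absurd h he⟩
  choose w hw using h1
  choose z hz0 hz3 hz2 hzF using fun e => hC (pt e) (w e)
  set κ : ℂ := ⟨1 / 2, -(√3 / 2)⟩ with hκ
  -- the kept diagram
  obtain ⟨e₀, he₀⟩ := hinf'.nonempty
  obtain ⟨hK1, hK2, hK3⟩ := hK n D (w e₀) (hw e₀ he₀).1
  rw [(hw e₀ he₀).2.1] at hK3
  obtain ⟨τ, hτ⟩ := hR n D hK1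
  obtain ⟨t, ht1, ht2⟩ := hTr τ
  have hpar : ∀ e ∈ I, ((-1 : ℤ)) ^ t.length * (-1) ^ (w e).length = -1 := by
    intro e he
    rw [← ht1]
    exact (hK n D (w e) (hw e he).1).2.1 τ hτ
  have hparC : ∀ e ∈ I, ((-1 : ℂ)) ^ t.length * (-1) ^ (w e).length = -1 := by
    intro e he
    exact_mod_cast congrArg (Int.cast : ℤ → ℂ) (hpar e he)
  have hexp : ∀ e ∈ I, expSum (w e) = e := fun e he => (hw e he).2.2
  have hκ0 : ∀ e ∈ I, e ≠ 0 → (((pt e) ^ expSum (w e) : ℂˣ) : ℂ) = κ := by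
    intro e he h0
    rw [hexp e he]
    exact pt_pow h0
  -- the limit
  obtain ⟨U, z', hU1, hU2, hU3, hU4⟩ := hCo I z hinf' (by
    intro e he h7
    have h0 : e ≠ 0 := by
      rintro rfl
      norm_num at h7
    obtain ⟨hi3, hi2⟩ := (hI (pt e) (w e)).1 (pt_unit e)
    refine ⟨?_, ?_, ?_⟩
    · rw [hz0 e, hκ0 e he h0, hκ, Main_kappa_norm]
    · rw [← hz3 e]
      exact hi3
    · rw [← hz2 e]
      exact hi2)
  have := hU1
  have hev : ∀ᶠ e in U, e ∈ I ∧ e ≠ 0 := by
    have h2 : ∀ᶠ e : ℤ in U, e ≠ 0 := hU2 (by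
      rw [Filter.mem_cofinite]
      exact (Set.finite_singleton (0 : ℤ)).subset (by
        intro x hx
        simpa using hx))
    exact (Filter.eventually_of_mem hU3 fun _ h => h).and h2
  have L0 : z' 0 = κ := by
    have hf : Continuous fun p : ℂ × (Fin 14 → ℂ) => p.2 0 :=
      (continuous_apply 0).comp continuous_snd
    exact Main_lim hU2 hf hU4 (hev.mono fun e he => by
      show z e 0 = κ
      rw [hz0 e, hκ0 e he.1 he.2])
  have L3 : (comb3 (-2) z')ᴴ * G3 (-2) * comb3 (-2) z' = G3 (-2) := by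
    have hf : Continuous fun p : ℂ × (Fin 14 → ℂ) =>
        (comb3 p.1 p.2)ᴴ * G3 p.1 * comb3 p.1 p.2 - G3 p.1 :=
      ((Main_cont_comb3.matrix_conjTranspose.matrix_mul (Main_cont_G3.comp continuous_fst)).matrix_mul
        Main_cont_comb3).sub (Main_cont_G3.comp continuous_fst)
    have h := Main_lim hU2 hf hU4 (c := 0) (hev.mono fun e he => by
      show (comb3 (lv (pt e)) (z e))ᴴ * G3 (lv (pt e)) * comb3 (lv (pt e)) (z e) -
        G3 (lv (pt e)) = 0
      rw [sub_eq_zero, ← hz3 e]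
      exact ((hI (pt e) (w e)).1 (pt_unit e)).1)
    exact sub_eq_zero.mp h
  have L2 : (comb2 (-2) z')ᴴ * G2 (-2) * comb2 (-2) z' = G2 (-2) := by
    have hf : Continuous fun p : ℂ × (Fin 14 → ℂ) =>
        (comb2 p.1 p.2)ᴴ * G2 p.1 * comb2 p.1 p.2 - G2 p.1 :=
      ((Main_cont_comb2.matrix_conjTranspose.matrix_mul (Main_cont_G2.comp continuous_fst)).matrix_mul
        Main_cont_comb2).sub (Main_cont_G2.comp continuous_fst)
    have h := Main_lim hU2 hf hU4 (c := 0) (hev.mono fun e he => by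
      show (comb2 (lv (pt e)) (z e))ᴴ * G2 (lv (pt e)) * comb2 (lv (pt e)) (z e) -
        G2 (lv (pt e)) = 0
      rw [sub_eq_zero, ← hz2 e]
      exact ((hI (pt e) (w e)).1 (pt_unit e)).2)
    exact sub_eq_zero.mp h
  have hsq : ((-1 : ℂ)) ^ t.length * (-1) ^ t.length = 1 := by
    rw [← mul_pow]
    norm_num
  have LD3 : (comb3 (-2) z').det * (-1) ^ t.length = -κ⁻¹ := by
    have hf : Continuous fun p : ℂ × (Fin 14 → ℂ) => (comb3 p.1 p.2).det * (-1) ^ t.length :=
      (Main_cont_comb3.matrix_det).mul continuous_const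
    exact Main_lim hU2 hf hU4 (hev.mono fun e he => by
      show (comb3 (lv (pt e)) (z e)).det * (-1) ^ t.length = -κ⁻¹
      rw [← hz3 e, (hI (pt e) (w e)).2.1, hκ0 e he.1 he.2]
      linear_combination κ⁻¹ * hparC e he.1)
  have LD2 : (comb2 (-2) z').det * (-1) ^ t.length = -(κ⁻¹) ^ 2 := by
    have hf : Continuous fun p : ℂ × (Fin 14 → ℂ) => (comb2 p.1 p.2).det * (-1) ^ t.length :=
      (Main_cont_comb2.matrix_det).mul continuous_const
    exact Main_lim hU2 hf hU4 (hev.mono fun e he => by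
      show (comb2 (lv (pt e)) (z e)).det * (-1) ^ t.length = -(κ⁻¹) ^ 2
      rw [← hz2 e, (hI (pt e) (w e)).2.2, hκ0 e he.1 he.2]
      linear_combination (κ⁻¹) ^ 2 * hparC e he.1)
  -- the identity in the limit
  have hid : ∑ i, z' i * ((-1) ^ n * (-2 : ℂ) ^ kc D (fun _ => .keep) (wl i)) =
      (-1) ^ n * (-1) ^ t.length * (1 * (-2 * 1)) := by
    have hl : Tendsto (fun e : ℤ => ∑ i, z e i * Main_m (pt e) D i) U
        (𝓝 (∑ i, z' i * ((-1) ^ n * (-2 : ℂ) ^ kc D (fun _ => .keep) (wl i)))) := by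
      apply tendsto_finsetSum
      intro i _
      apply Tendsto.mul
      · exact ((continuous_apply i).tendsto z').comp hU4
      · have h5 := (Main_m_tendsto D i).mono_left hU2
        have h6 : (∑ s : Fin n → Bool, (-2 : ℂ) ^ kc D (ways s) (wl i)) =
            (-1) ^ n * (-2 : ℂ) ^ kc D (fun _ => .keep) (wl i) := by
          exact_mod_cast congrArg (Int.cast : ℤ → ℂ) (hS n D (wl i))
        rw [h6] at h5
        exact h5
    have hr : Tendsto (fun e : ℤ => (-1) ^ n * (-1) ^ t.length *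
        ((((pt e) ^ (3 * D.writhe) : ℂˣ) : ℂ) * (lv (pt e) * ev (pt e) P))) U
        (𝓝 ((-1) ^ n * (-1) ^ t.length * (1 * (-2 * 1)))) := by
      apply Tendsto.const_mul
      apply Tendsto.mul
      · exact (Main_zpow_tendsto _).mono_left hU2
      · apply Tendsto.mul
        · exact Main_lv_tendsto.mono_left hU2
        · rw [← hK3]
          exact (Main_ev_tendsto P).mono_left hU2
    refine tendsto_nhds_unique (hl.congr' (hev.mono fun e he => ?_)) hr
    have h7 := Main_identity hE hT D (w e) (z e) P (by rw [hexp e he.1]; exact he.2)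
      (hpar e he.1) (by rw [hexp e he.1]; exact hzF e) (hw e he.1).2.1
    rw [hexp e he.1] at h7
    exact h7
  have hid2 : ∑ i, z' i * ((-1 : ℂ) ^ t.length *
      (-2) ^ Nat.log 2 (Matrix.trace (mat (wl i) * permM τ))) = -2 := by
    have h8 : ∀ i, kc D (fun _ => .keep) (wl i) =
        Nat.log 2 (Matrix.trace (mat (wl i) * permM τ)) := by
      intro i
      unfold kc
      rw [hτ]
    have h9 : ((-1 : ℂ)) ^ n * (-1) ^ n = 1 := by
      rw [← mul_pow]
      norm_num
    have h10 : ∑ i, z' i * ((-1 : ℂ) ^ t.length *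
        (-2) ^ Nat.log 2 (Matrix.trace (mat (wl i) * permM τ))) =
        (-1) ^ n * (-1) ^ t.length *
          ∑ i, z' i * ((-1) ^ n * (-2 : ℂ) ^ kc D (fun _ => .keep) (wl i)) := by
      rw [Finset.mul_sum]
      refine Finset.sum_congr rfl fun i _ => ?_
      rw [h8 i]
      linear_combination (-(z' i * ((-1 : ℂ) ^ t.length *
        (-2) ^ Nat.log 2 (Matrix.trace (mat (wl i) * permM τ))))) * h9
    rw [h10, hid]
    linear_combination (-2 * ((-1 : ℂ) ^ t.length * (-1) ^ t.length)) * h9 - 2 * hsq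
  rw [Main_trace z' ht2, L0] at hid2
  -- the contradiction
  obtain ⟨hi, hd3, hd2⟩ := hI 1 (t.map fun a => (a, 1))
  rw [Main_lv_one] at hi hd3 hd2
  obtain ⟨hi3, hi2⟩ := hi (by simp)
  rw [_root_.one_zpow, Units.val_one, inv_one, List.length_map] at hd3 hd2
  refine hCon (comb3 (-2) z' * rep 1 (EE (-2)) (t.map fun a => (a, 1)))
    (comb2 (-2) z' * rep 1 (FF (-2)) (t.map fun a => (a, 1))) κ hκ ?_ ?_ ?_ ?_ hid2
  · rw [Matrix.conjTranspose_mul]
    calc _ = (rep 1 (EE (-2)) (t.map fun a => (a, 1)))ᴴ *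
          ((comb3 (-2) z')ᴴ * G3 (-2) * comb3 (-2) z') *
            rep 1 (EE (-2)) (t.map fun a => (a, 1)) := by simp only [Matrix.mul_assoc]
      _ = G3 (-2) := by rw [L3, hi3]
  · rw [Matrix.conjTranspose_mul]
    calc _ = (rep 1 (FF (-2)) (t.map fun a => (a, 1)))ᴴ *
          ((comb2 (-2) z')ᴴ * G2 (-2) * comb2 (-2) z') *
            rep 1 (FF (-2)) (t.map fun a => (a, 1)) := by simp only [Matrix.mul_assoc]
      _ = G2 (-2) := by rw [L2, hi2]
  · rw [Matrix.det_mul, hd3, mul_one]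
    exact LD3
  · rw [Matrix.det_mul, hd2, one_pow, mul_one]
    exact LD2

theorem Main_finite (n : ℕ) : Finite (Diagram n) :=
  Finite.of_injective (fun D : Diagram n => (D.sign, D.next)) (by
    rintro ⟨s, σ⟩ ⟨s', σ'⟩ h
    simp only [Prod.mk.injEq] at h
    obtain ⟨rfl, rfl⟩ := h
    rfl)

theorem thm_Main (hE : St_Expand) (hT : St_TLF) (hC : St_Coord) (hI : St_Iso) (hK : St_Knot)
    (hR : St_Return) (hTr : St_Trace) (hS : St_States) (hCo : St_Compact) (hCon : St_Contra) :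
    St_Main := by
  intro n P
  have hfin := Main_finite n
  refine (Set.finite_iUnion fun D : Diagram n =>
    Main_fixed hE hT hC hI hK hR hTr hS hCo hCon D P).subset ?_
  rintro e ⟨D, w, hw⟩
  exact Set.mem_iUnion.mpr ⟨D, w, hw⟩

theorem thm_MainOpen (hM : St_Main) (hO : St_Open) : St_MainOpen := by
  intro n P
  refine (hM n P).subset ?_
  rintro e ⟨D, z, w, hK, hP, he⟩
  refine ⟨D, w, hK, ?_, he⟩
  rw [← hP]
  have h1 : (D.insert w).openBracket (place z w) = (D.insert w).bracket := by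
    unfold Diagram.bracket Diagram.openBracket
    refine Finset.sum_congr rfl fun s _ => ?_
    rw [hO]
  unfold Diagram.normalized Diagram.openNormalized
  rw [h1]

end Pool.Agent.Ins
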