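import Pool.Agent.Ins.Defs
import Pool.Agent.B4.Finite

/-!
# Statements of the modules of the insertion theorem

Every module proves one statement `St_X`; the proof is in the docstring.
-/

namespace Pool.Agent.Ins

open Matrix LaurentPolynomial Filter Topology Pool.Agent.B4

variable {n : ℕ}

/-! ### Counting curves with two colours -/

/-- Colours on four strands. -/
abbrev Col : Type := Fin 4 → Bool

/-- The number of colourings of the arcs with two colours which agree at the crossings, have the
colours `x` on the arcs arriving at the gates and `y` on the arcs leaving the gates. -/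
noncomputable def theta (D : Diagram n) (c : Fin n → Way) : Matrix Col Col ℕ := fun x y =>
  Nat.card {h : Tip n → Bool // (∀ p, h (D.arc p) = h p) ∧
    (∀ k i b, h (join c (.inr (k, i), b)) = h (.inr (k, i), b)) ∧
    (∀ a, h (.inl a, false) = x a) ∧ ∀ a, h (.inl a, true) = y a}

/-- The matrix of a permutation of the strands. -/
def permM (τ : Equiv.Perm (Fin 4)) : Matrix Col Col ℕ := fun x y =>
  if ∀ a, y a = x (τ a) then 1 else 0

/-- The matrices of the ways at the place `a`. -/
def W (a : Fin 3) : Way → Matrix Col Col ℕ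
  | .keep => permM (Equiv.swap a.castSucc a.succ)
  | .along => 1
  | .turn => fun x y => if x a.castSucc = x a.succ ∧ y a.castSucc = y a.succ ∧
      (∀ b, b ≠ a.castSucc → b ≠ a.succ → x b = y b) then 1 else 0

/-- The matrix of a word of turnbacks. -/
def mat (u : List (Fin 3)) : Matrix Col Col ℕ := (u.map fun a => W a .turn).prod

/-- The number of curves of the diagram `D` with the ways `c` at the crossings and the word `u` of
turnbacks inserted at the gates. -/
noncomputable def kc (D : Diagram n) (c : Fin n → Way) (u : List (Fin 3)) : ℕ :=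
  Nat.log 2 (Matrix.trace (mat u * theta D c))

/-- **CLOSE.**  PROOF.  The left side counts the functions `h : Tip n → Bool` which are constant on
the classes of the relation of `curves` (functions on `Quot` = invariant functions;
`Nat.card (Q → Bool) = 2 ^ Nat.card Q`), i.e. with `h (D.arc p) = h p` and `h (join c p) = h p` for
all `p`.  At the gates the second condition says `h (inl a, false) = h (inl a, true)`.  Sort these
functions by the common value `x : Col` at the gates: `∑ x, theta D c x x`
(`Nat.card` of a sigma type, or `Fintype.card_congr` plus `Finset.card_eq_sum_card_fiberwise`). -/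
def St_Close : Prop := ∀ (n : ℕ) (D : Diagram n) (c : Fin n → Way),
  2 ^ D.curves c = (theta D c).trace

/-- **PUSH.**  PROOF.  A colouring `h` of `D` is given by its values on the tips `(s, true)` (the
colours of the arcs), because `h (s, false) = h (D.next.symm s, true)`.  The arcs of `D.push a ε` are
the arcs of `D` (leaving from `up s`) and two new arcs, leaving from `inr (0, false)` to the gate
`a + 1` and from `inr (0, true)` to the gate `a`.  Let `x'` be the colours arriving at the gates of
`D.push a ε` and `x` the colours arriving at the gates in `D`; then `x' a = colour of the new arc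
(0, true)`, `x' (a + 1) = colour of the new arc (0, false)`, `x' b = x b` for the other gates, and the
colours arriving at the new passages `false`, `true` are `x a`, `x (a + 1)`.  The condition at the
new crossing is: keep: `x a = x' (a + 1)`, `x (a + 1) = x' a`; along: `x a = x' a`,
`x (a + 1) = x' (a + 1)`; turn: `x a = x (a + 1)`, `x' a = x' (a + 1)`.  So for given `x', y` the
colourings of `D.push a ε` are the disjoint union over `x` with `W a v x' x = 1` of the colourings of
`D` with boundary colours `x, y`. -/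
def St_Push : Prop := ∀ (n : ℕ) (D : Diagram n) (a : Fin 3) (ε : ℤˣ) (v : Way) (c : Fin n → Way),
  theta (D.push a ε) (Fin.cons v c : Fin (n + 1) → Way) = W a v * theta D c

/-- **KC** (from `St_Close`, `St_Push`).  PROOF.  Define by recursion on `u` the diagram `D_u`
(`D_[] = D`, `D_(a :: u) = D_u.push a 1`) and the ways `c_u` (`c_(a :: u) = Fin.cons .turn c_u`).
By `St_Push` `theta D_u c_u = mat u * theta D c`, so by `St_Close` the trace is
`2 ^ (D_u.curves c_u)` and `kc D c u = D_u.curves c_u`.  This is at least one because `Tip` is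
finite and not empty (`Quot` of a nonempty finite type).  The last two: `St_Push` and
`mat u * W a .turn = mat (u ++ [a])`. -/
def St_Kc : Prop :=
  (∀ (n : ℕ) (D : Diagram n) (c : Fin n → Way) (u : List (Fin 3)),
    2 ^ kc D c u = Matrix.trace (mat u * theta D c)) ∧
  (∀ (n : ℕ) (D : Diagram n) (c : Fin n → Way) (u : List (Fin 3)), 1 ≤ kc D c u) ∧
  (∀ (n : ℕ) (D : Diagram n) (c : Fin n → Way), kc D c [] = D.curves c) ∧
  (∀ (n : ℕ) (D : Diagram n) (a : Fin 3) (ε : ℤˣ) (c : Fin n → Way) (u : List (Fin 3)),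
    kc (D.push a ε) (Fin.cons .along c : Fin (n + 1) → Way) u = kc D c u) ∧
  (∀ (n : ℕ) (D : Diagram n) (a : Fin 3) (ε : ℤˣ) (c : Fin n → Way) (u : List (Fin 3)),
    kc (D.push a ε) (Fin.cons .turn c : Fin (n + 1) → Way) u = kc D c (u ++ [a]))

/-! ### The three-term relation -/

/-- **PAIR.**  PROOF.  Put `ρ p = ν (μ p)`, a permutation of the finite set `V`, with inverse
`μ ∘ ν`.  `ρ x = ν x`.  For all integers `i`: `μ (ρ ^ i x) = ρ ^ (-i) x` and
`ν (ρ ^ i x) = ρ ^ (1 - i) x` (because `μ ρ μ = ρ⁻¹` and `μ x = x`).  So the set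
`{ρ ^ i x}` is closed under `μ` and `ν`: it is the class of `x`.  Let `k > 0` be the minimal period
of `x` under `ρ`.  `ν` has no fixed point, so `ρ ^ (1 - i) x ≠ ρ ^ i x`, i.e. `k` does not divide
`2 i - 1` for any `i`: `k` is even.  `ρ ^ i x` is fixed by `μ` iff `k ∣ 2 i` iff `k / 2 ∣ i` iff
`ρ ^ i x ∈ {x, ρ ^ (k / 2) x}`.  Take `y = ρ ^ (k / 2) x`. -/
def St_Pair : Prop := ∀ (V : Type) [Finite V] (μ ν : V → V), (∀ p, μ (μ p) = p) →
  (∀ p, ν (ν p) = p) → (∀ p, ν p ≠ p) → ∀ x, μ x = x → ∃ y, y ≠ x ∧ μ y = y ∧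
    Quot.mk (fun p q : V => q = μ p ∨ q = ν p) y = Quot.mk (fun p q : V => q = μ p ∨ q = ν p) x ∧
    ∀ z, μ z = z →
      Quot.mk (fun p q : V => q = μ p ∨ q = ν p) z = Quot.mk (fun p q : V => q = μ p ∨ q = ν p) x →
      z = x ∨ z = y

/-- **THREE** (from `St_Pair`).  PROOF.  Let `V = Tip n`, `ν = D.arc` (an involution without fixed
points), and let `μ` be `join c` except that `μ` fixes the four tips
`p₀ = (inr (x, false), false)`, `p₁ = (inr (x, true), false)`, `q₀ = (inr (x, false), true)`,
`q₁ = (inr (x, true), true)` of the crossing `x`; these are the only fixed points of `μ`.  Let `Q` be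
the set of classes of `μ, ν`, `r` its cardinality and `[p]` the class of `p`.  By `St_Pair` the four
tips lie in two different classes, two in each, so exactly one of the three pairings
`{p₀q₀, p₁q₁}` (keep), `{p₀q₁, p₁q₀}` (along), `{p₀p₁, q₀q₁}` (turn) joins tips of the same class.
The classes of the relation of `D.curves (update c x v)` are obtained from `Q` by identifying the
classes of joined tips: functions to `Bool` which are constant on them are the functions
`f : Q → Bool` with `f [p] = f [p']` for the two pairs of `v`.  For the pairing which joins tips of the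
same class there are `2 ^ r` of them; for the other two the condition is `f k₁ = f k₂` for two
different classes `k₁ ≠ k₂`, so `2 ^ (r - 1)` of them (`r ≥ 2`; flip the value at `k₁`).  Hence the
three numbers of curves are `r, r - 1, r - 1` in some order, and
`(-2) ^ r + 2 (-2) ^ (r - 1) = 0`. -/
def St_Three : Prop := ∀ (n : ℕ) (D : Diagram n) (c : Fin n → Way) (x : Fin n),
  (-2 : ℤ) ^ D.curves (Function.update c x .keep) +
    (-2 : ℤ) ^ D.curves (Function.update c x .along) +
    (-2 : ℤ) ^ D.curves (Function.update c x .turn) = 0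

/-- The ways of a state. -/
def ways (s : Fin n → Bool) : Fin n → Way := fun x => if s x then .along else .turn

/-- **STATES** (from `St_Close`, `St_Push`, `St_Kc`, `St_Three`).  PROOF.  First
`(-2) ^ kc D (update c x .keep) u + (-2) ^ kc D (update c x .along) u +
(-2) ^ kc D (update c x .turn) u = 0` for all `D, c, x, u`: with `D_u`, `c_u` as in KC,
`kc D c u = D_u.curves c_u` (both have the same power of two), and
`(update c x v)_u = update c_u x' v` for the image `x'` of `x`; apply `St_Three` to `D_u`.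
Then for every function `g : (Fin n → Way) → ℤ` with
`g (update c x .keep) + g (update c x .along) + g (update c x .turn) = 0` for all `c, x` one has
`∑ s, g (ways s) = (-1) ^ n * g (fun _ => .keep)`: induction on `n`, splitting off the crossing `0`
(`Fin.consEquiv`, `Fin.cons` and `Function.update`). -/
def St_States : Prop := ∀ (n : ℕ) (D : Diagram n) (u : List (Fin 3)),
  ∑ s : Fin n → Bool, (-2 : ℤ) ^ kc D (ways s) u = (-1) ^ n * (-2) ^ kc D (fun _ => .keep) u

/-! ### Temperley-Lieb relations -/

/-- A function on words of turnbacks which satisfies the relations of the Temperley-Lieb algebra. -/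
structure TLFun (d : ℂ) (F : List (Fin 3) → ℂ) : Prop where
  sq : ∀ (u v : List (Fin 3)) (a : Fin 3), F (u ++ a :: a :: v) = d * F (u ++ a :: v)
  braid : ∀ (u v : List (Fin 3)) (a b : Fin 3), a.val + 1 = b.val ∨ b.val + 1 = a.val →
    F (u ++ a :: b :: a :: v) = F (u ++ a :: v)
  comm : ∀ u v : List (Fin 3), F (u ++ 2 :: 0 :: v) = F (u ++ 0 :: 2 :: v)

/-- **TLF** (from `St_Kc`).  PROOF.  The matrices `U a = W a .turn` satisfy `U a * U a = 2 • U a`,
`U a * U b * U a = U a` for `|a - b| = 1` and `U 2 * U 0 = U 0 * U 2` (finitely many entries: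
`decide +kernel`, or by hand).  With `St_Kc` (first part) this gives
`2 ^ kc D c (u ++ a :: a :: v) = 2 ^ (kc D c (u ++ a :: v) + 1)` and so on, hence the relations for
`kc`, hence for `d ^ kc`. -/
def St_TLF : Prop := ∀ (n : ℕ) (D : Diagram n) (c : Fin n → Way) (d : ℂ),
  TLFun d (fun u => d ^ kc D c u)

/-- Evaluation of Laurent polynomials at `A`. -/
noncomputable def ev (A : ℂˣ) : ℤ[T;T⁻¹] →+* ℂ := LaurentPolynomial.eval₂ (Int.castRingHom ℂ) A

/-- The value of a loop. -/
noncomputable def lv (A : ℂˣ) : ℂ := -(A : ℂ) ^ 2 - ((A : ℂ)⁻¹) ^ 2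

/-- The expansion of a braid word: every letter `σ_a ^ ε` becomes `A ^ ε` plus `A ^ (-ε)` times the
turnback at `a`. -/
noncomputable def wordSum (A : ℂˣ) : (List (Fin 3) → ℂ) → List (Fin 3 × ℤˣ) → ℂ
  | F, [] => F []
  | F, l :: w => ((A ^ (l.2 : ℤ) : ℂˣ) : ℂ) * wordSum A F w +
      ((A ^ (-(l.2 : ℤ)) : ℂˣ) : ℂ) * wordSum A (fun u => F (l.1 :: u)) w

/-- The weight of a state of the outer crossings. -/
noncomputable def wt (A : ℂˣ) (D : Diagram n) (s : Fin n → Bool) : ℂ :=
  ∏ x, ((A ^ (if s x then (D.sign x : ℤ) else -(D.sign x : ℤ)) : ℂˣ) : ℂ)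

/-- **EXPAND** (from `St_Kc`).  PROOF.  For a diagram `D'` and a word `v` put
`S D' v = ∑ s, wt A D' s * lv A ^ kc D' (ways s) v`.  By `St_Kc` (`1 ≤ kc`, `kc D' c [] = curves`)
`lv A * ev A D'.bracket = S D' []` (`ev A (T k) = A ^ k`, `ev A (-T 2 - T (-2)) = lv A`).
Splitting off the crossing `0` of `D'.push a ε` (`Fin.consEquiv`, `Fin.prod_univ_succ`,
`ways (Fin.cons b s) = Fin.cons _ (ways s)`) and the last two parts of `St_Kc`:
`S (D'.push a ε) v = A ^ ε * S D' v + A ^ (-ε) * S D' (v ++ [a])`.  By induction on `w`, for all `v`: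
`S (D.insert w) v = ∑ s, wt A D s * wordSum A (fun u => lv A ^ kc D (ways s) (v ++ u)) w`. -/
def St_Expand : Prop := ∀ (n : ℕ) (D : Diagram n) (w : List (Fin 3 × ℤˣ)) (A : ℂˣ),
  lv A * ev A (D.insert w).bracket =
    ∑ s : Fin n → Bool, wt A D s * wordSum A (fun u => lv A ^ kc D (ways s) u) w

/-- The fourteen words as lists. -/
def wl : Fin 14 → List (Fin 3) :=
  ![[], [0], [1], [2], [0, 1], [1, 0], [1, 2], [2, 1], [0, 2], [0, 1, 2], [2, 1, 0], [0, 2, 1],
    [1, 0, 2], [1, 0, 2, 1]]

/-- The product over a braid word of `A ^ ε + A ^ (-ε) E_a`. -/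
noncomputable def rep {R : Type*} [Ring R] [Algebra ℂ R] (A : ℂˣ) (E : Fin 3 → R)
    (w : List (Fin 3 × ℤˣ)) : R :=
  (w.map fun l => ((A ^ (l.2 : ℤ) : ℂˣ) : ℂ) • (1 : R) +
    ((A ^ (-(l.2 : ℤ)) : ℂˣ) : ℂ) • E l.1).prod

/-- The combination of the fourteen words with coefficients `z` in the representation of dimension
three. -/
noncomputable def comb3 (d : ℂ) (z : Fin 14 → ℂ) : Matrix (Fin 3) (Fin 3) ℂ :=
  ∑ i, z i • wd (EE d 0) (EE d 1) (EE d 2) i

/-- The same in the representation of dimension two. -/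
noncomputable def comb2 (d : ℂ) (z : Fin 14 → ℂ) : Matrix (Fin 2) (Fin 2) ℂ :=
  ∑ i, z i • wd (FF d 0) (FF d 1) (FF d 2) i

/-- **COORD.**  PROOF.  Let `M` be the `ℂ`-submodule of `List (Fin 3) → ℂ` of all `F` with
`TLFun (lv A) F`, and `E a : M → M`, `(E a F) v = F (v ++ [a])` (again in `M`, as the relations are
two-sided).  In `R = Module.End ℂ M` the `E a` satisfy `TLRel (lv A)` (B4/TLfour), and the product
`E a₁ * ⋯ * E a_k` applied to `F` has at `[]` the value `F [a₁, …, a_k]`.  So for `F ∈ M`
the value at `[]` of `(rep A E w) F` is `wordSum A F w` (induction on `w`, for all `v`: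
`((rep A E w) F) v = wordSum A (fun u => F (v ++ u)) w`), and of `(wd (E 0) (E 1) (E 2) i) F` it is
`F (wl i)`.  Take the product algebra
`R × Matrix (Fin 3) (Fin 3) ℂ × Matrix (Fin 2) (Fin 2) ℂ × ℂ` with the elements
`(E a, EE (lv A) a, FF (lv A) a, 0)` (`TLRel` componentwise as in B4/Decomp `ee_rel`; `wd` is
componentwise as in `wd_proj`) and `list_mem` of B4/TLfour: the product over `w` lies in the span of
the fourteen words, i.e. it is `∑ i, z i • wd _ _ _ i`.  Read off the four components; the last one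
is `A ^ expSum w` and `wd 0 0 0 i` is `1` for `i = 0` and `0` otherwise. -/
def St_Coord : Prop := ∀ (A : ℂˣ) (w : List (Fin 3 × ℤˣ)), ∃ z : Fin 14 → ℂ,
  z 0 = ((A ^ expSum w : ℂˣ) : ℂ) ∧ rep A (EE (lv A)) w = comb3 (lv A) z ∧
    rep A (FF (lv A)) w = comb2 (lv A) z ∧
    ∀ F, TLFun (lv A) F → wordSum A F w = ∑ i, z i * F (wl i)

/-- **ISO.**  PROOF.  As `word_isom3`, `word_det3` etc. in B4/Words, from `isom_of`, `EE_adj`,
`EE_sq`, `EE_det` and `list_isom` (induction on `w`). -/
def St_Iso : Prop := ∀ (A : ℂˣ) (w : List (Fin 3 × ℤˣ)),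
  ((starRingEnd ℂ) (A : ℂ) * (A : ℂ) = 1 →
    (rep A (EE (lv A)) w)ᴴ * G3 (lv A) * rep A (EE (lv A)) w = G3 (lv A) ∧
    (rep A (FF (lv A)) w)ᴴ * G2 (lv A) * rep A (FF (lv A)) w = G2 (lv A)) ∧
  (rep A (EE (lv A)) w).det = (-1) ^ w.length * (((A ^ expSum w : ℂˣ) : ℂ))⁻¹ ∧
  (rep A (FF (lv A)) w).det = (-1) ^ w.length * ((((A ^ expSum w : ℂˣ) : ℂ))⁻¹) ^ 2

/-! ### The kept diagram -/

/-- **RETURN.**  PROOF.  For a gate `a` let `r a ≥ 1` be the least `i ≥ 1` such that
`D.next ^ i (inl a)` is a gate (it exists: the permutation has finite order), and `τ a` this gate.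
`τ` is injective: if `τ a = τ b` with `r a ≤ r b`, then `D.next ^ (r b - r a) (inl b) = inl a`, and
`r b - r a < r b`, so `r b = r a` and `a = b`.  By the hypothesis every site is
`D.next ^ j (inl a)` for exactly one `a` and `j < r a` (go back from the site to the first gate).
With all ways `keep` a colouring `h` is constant along the sites `D.next ^ j (inl a)`, `j < r a`, and
the arcs between them: all tips there have the colour `y a`, up to the tip `(inl (τ a), false)`.  So
`h` exists iff `x (τ a) = y a` for all `a`, and then it is unique. -/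
def St_Return : Prop := ∀ (n : ℕ) (D : Diagram n),
  (∀ s, ∃ a : Fin 4, D.next.SameCycle s (.inl a)) →
    ∃ τ : Equiv.Perm (Fin 4), theta D (fun _ => .keep) = permM τ

/-- **TRACE.**  Checked by computer for all 24 permutations, `t` a reduced word of `τ` (an explicit
list of the 24 words is in the note of helper14).  PROOF.  Everything is finite: first the
explicit form of the matrices `mat (wl i)` (as `W a .turn * mat (wl j)` with a shorter word, by
`decide +kernel`), then `∀ τ, ∃ t ∈ list, …` by `decide +kernel` with integer matrices; finally map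
the integer matrices to complex ones. -/
def St_Trace : Prop := ∀ τ : Equiv.Perm (Fin 4), ∃ t : List (Fin 3),
  ((Equiv.Perm.sign τ : ℤˣ) : ℤ) = (-1) ^ t.length ∧ ∀ i : Fin 14,
    (-1 : ℂ) ^ t.length * (-2) ^ Nat.log 2 (Matrix.trace (mat (wl i) * permM τ)) =
      5 * (if i = 0 then 1 else 0) +
      3 * Matrix.trace (wd (EE (-2) 0) (EE (-2) 1) (EE (-2) 2) i *
        rep 1 (EE (-2)) (t.map fun a => (a, 1))) +
      Matrix.trace (wd (FF (-2) 0) (FF (-2) 1) (FF (-2) 2) i *
        rep 1 (FF (-2)) (t.map fun a => (a, 1)))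

/-- **KNOT** (from `St_Close`, `St_Push`, `St_Kc`, `St_States`).  PROOF.  (1) If the cycle of a site
`s` of `D'` contains no gate, then in `D'.push a ε` the cycle of `up s` consists of the sites `up t`,
`t` in the cycle of `s` (`redirect a t = up t` if `t` is not a gate), and contains no gate; so if
every cycle of `D'.push a ε` contains a gate, the same holds for `D'`.  Start from `IsKnot` and go
down the word.  (2) If `IsKnot D'` then `D'.curves (fun _ => .keep) = 1`: all tips are in one class
(`(s, false)`, `(s, true)`, `(next s, false)` are joined, and `SameCycle` gives integer powers).  By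
`St_Close`, `St_Push`: `2 = trace (∏ W l.1 .keep * theta D keep) = trace (permM π)` with
`sign π = (-1) ^ w.length * sign τ`
(`permM σ * permM τ = permM (τ.trans σ)` or the like), and by `decide`: for every
permutation `π` of `Fin 4` with exactly two `x : Col` such that `x a = x (π a)` for all `a`, the sign
is `-1`.  (3) At `A = 1`: `-2 * ev 1 D'.bracket = ∑ s, (-2) ^ kc D' (ways s) [] =
(-1) ^ m * (-2) ^ 1` with `D' = D.insert w`, `m = n + w.length` crossings, and
`ev 1 D'.normalized = (-1) ^ writhe * ev 1 D'.bracket`; the writhe has the parity of `m`. -/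
def St_Knot : Prop := ∀ (n : ℕ) (D : Diagram n) (w : List (Fin 3 × ℤˣ)), (D.insert w).IsKnot →
  (∀ s, ∃ a : Fin 4, D.next.SameCycle s (.inl a)) ∧
  (∀ τ : Equiv.Perm (Fin 4), theta D (fun _ => .keep) = permM τ →
    ((Equiv.Perm.sign τ : ℤˣ) : ℤ) * (-1) ^ w.length = -1) ∧
  ev 1 (D.insert w).normalized = 1

/-! ### The limit -/

/-- **COMPACT.**  `pt e = exp (-π i / (3 e))` is from B4/Main.  PROOF.  `lv (pt e) =
-2 cos (2π / (3 e)) → -2` along `cofinite` (`pt_tendsto`, or `pt_cos` and `angle_tendsto`), and for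
`7 ≤ |e|` it is `-a` with `191/100 ≤ a ≤ 2` (`cos_bound`).  (1) Entries of a matrix `M` with
`Mᴴ G3(-a) M = G3(-a)` are bounded by `7`: for a vector `v` the form `vᴴ G3(-a) v` is at least
`(1/4) ‖v‖²` and at most `6 ‖v‖²` (`G3(-a) = [[a,-1,0],[-1,a,-1],[0,-1,a]]`); same for `G2`.
(2) The linear map `z ↦ (z 0, comb3 (-2) z, comb2 (-2) z)` on `ℂ^14` is injective: if it vanishes
then `z 0 = 0`; `comb3 d z = z 0 • 1 + Z * G'`, `G' = [[d,1,0],[1,d,1],[0,1,d]]`, where `Z` is the
matrix of the coefficients of the nine words `x, xy, xyz / yx, y, yz / zyx, zy, z` (row = first letter,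
column = last letter), and `det G' = d (d² - 2) = -4 ≠ 0`, so `Z = 0`; then
`comb2 d z = Y * [[d²,d],[d,d²]]`-like with the last four coefficients, determinant `d⁴ - d² = 12`.
(Simplest in Lean: write out the entries with `simp [wd, EE, …]` and `linear_combination`.)
(3) Hence there is `c > 0` with `‖(z 0, comb3 (-2) z, comb2 (-2) z)‖ ≥ c ‖z‖`
(`LinearMap.exists_antilipschitzWith`), and `‖comb_i d z - comb_i (-2) z‖ ≤ (c/4) ‖z‖` for `d` near
`-2` (the coefficients are polynomials in `d`).  So `‖z e‖ ≤ C` for all but finitely many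
`e ∈ I`.  (4) Let `𝒰` be an ultrafilter below `cofinite ⊓ 𝓟 I` (proper, because `I` is
infinite); `z` has a limit along `𝒰` in the compact ball (`IsCompact.ultrafilter_le_nhds`). -/
def St_Compact : Prop := ∀ (I : Set ℤ) (z : ℤ → Fin 14 → ℂ), I.Infinite →
  (∀ e ∈ I, 7 ≤ |e| → ‖z e 0‖ ≤ 1 ∧
    (comb3 (lv (pt e)) (z e))ᴴ * G3 (lv (pt e)) * comb3 (lv (pt e)) (z e) = G3 (lv (pt e)) ∧
    (comb2 (lv (pt e)) (z e))ᴴ * G2 (lv (pt e)) * comb2 (lv (pt e)) (z e) = G2 (lv (pt e))) →
  ∃ (U : Filter ℤ) (z' : Fin 14 → ℂ), U.NeBot ∧ U ≤ cofinite ∧ I ∈ U ∧ Tendsto z U (𝓝 z')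

/-- **CONTRA.**  PROOF.  As the end of `exists_traces` and `value_ne_one` in B4/Main with `a = 2`:
`X = M.trace`, `two_roots` (with `ρ = ⟨-(√3/2), 1/2⟩`, `ρ² = -(κ⁻¹)²`) gives
`M'.trace = y ρ`, `|y| ≤ 2`; `three_roots` gives the inequality; apply `no_matrices`. -/
def St_Contra : Prop := ∀ (M : Matrix (Fin 3) (Fin 3) ℂ) (M' : Matrix (Fin 2) (Fin 2) ℂ) (κ : ℂ),
  κ = ⟨1 / 2, -(√3 / 2)⟩ → Mᴴ * G3 (-2) * M = G3 (-2) → M'ᴴ * G2 (-2) * M' = G2 (-2) →
    M.det = -κ⁻¹ → M'.det = -(κ⁻¹) ^ 2 → 5 * κ + 3 * M.trace + M'.trace ≠ -2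

/-- **OPEN** (from `St_Pair`).  PROOF.  Apply `St_Pair` with `V = Tip n`, `ν = join c` (an involution
without fixed points) and `μ` = `D.arc` changed so that it fixes the two tips `(z, true)` and
`(D.next z, false)` of the cut arc; these are the only fixed points of `μ`, so they lie in the same
class of the relation of `openCurves` (which generates the same equivalence relation as `μ, ν`).
So adding the pair of the cut arc does not change the classes: the two quotients are in bijection
(`Nat.card_congr` with `Quot.lift` both ways, or `Nat.card_eq_of_bijective`). -/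
def St_Open : Prop := ∀ (n : ℕ) (D : Diagram n) (z : Site n) (c : Fin n → Way),
  D.openCurves z c = D.curves c

/-- **MAIN** (from everything). -/
def St_Main : Prop := ∀ (n : ℕ) (P : ℤ[T;T⁻¹]),
  {e : ℤ | ∃ (D : Diagram n) (w : List (Fin 3 × ℤˣ)), (D.insert w).IsKnot ∧
    (D.insert w).normalized = P ∧ expSum w = e}.Finite

/-- **MAIN for knotoids** (from `St_Main`, `St_Open`). -/
def St_MainOpen : Prop := ∀ (n : ℕ) (P : ℤ[T;T⁻¹]),
  {e : ℤ | ∃ (D : Diagram n) (z : Site n) (w : List (Fin 3 × ℤˣ)), (D.insert w).IsKnot ∧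
    (D.insert w).openNormalized (place z w) = P ∧ expSum w = e}.Finite

end Pool.Agent.Ins
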